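import Pool.Agent.J4H90.RotGraph

/-!
# Rotation snarks: the graphs are not 3-edge-colourable; the rotation
-/

set_option autoImplicit false

namespace Pool.Agent.J4H90.Rot

open Pool.Agent.N366.RS

theorem third : ∀ a b c : Fin 3, a ≠ b → c ≠ a → c ≠ b → c = -a - b := by decide

theorem blk0 : ∀ x y p0 q2 b03 b12 : Fin 3, x ≠ y → p0 ≠ x → q2 ≠ y → b03 ≠ p0 → b03 ≠ -y - q2 →
    b12 ≠ -x - p0 → b12 ≠ q2 →
    ((-(-x - p0) - b12 = -(-y - q2) - b03) ↔ ¬ (-p0 - b03 = -q2 - b12)) := by decide +kernel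

theorem blk : ∀ x y : Fin 3, x ≠ y → ∀ p0 : Fin 3, p0 ≠ x → ∀ p1 : Fin 3, p1 ≠ x → p0 ≠ p1 →
    ∀ q2 : Fin 3, q2 ≠ y → ∀ q3 : Fin 3, q3 ≠ y → q2 ≠ q3 →
    ∀ b03 : Fin 3, b03 ≠ p0 → b03 ≠ q3 → ∀ b12 : Fin 3, b12 ≠ p1 → b12 ≠ q2 →
    ∀ r0 : Fin 3, r0 ≠ p0 → r0 ≠ b03 → ∀ l3 : Fin 3, l3 ≠ q3 → l3 ≠ b03 →
    ∀ l1 : Fin 3, l1 ≠ p1 → l1 ≠ b12 → ∀ r2 : Fin 3, r2 ≠ q2 → r2 ≠ b12 →
    (l1 = l3 ↔ ¬ r0 = r2) := by
  intro x y hxy p0 h0 p1 h1 h01 q2 h2 q3 h3 h23 b03 a1 a2 b12 a3 a4 r0 a5 a6 l3 a7 a8 l1 a9 a10 r2 a11 a12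
  have e1 : p1 = -x - p0 := third x p0 p1 h0.symm h1 h01.symm
  have e3 : q3 = -y - q2 := third y q2 q3 h2.symm h3 h23.symm
  have e5 : r0 = -p0 - b03 := third p0 b03 r0 a1.symm a5 a6
  have e7 : l3 = -q3 - b03 := third q3 b03 l3 a2.symm a7 a8
  have e9 : l1 = -p1 - b12 := third p1 b12 l1 a3.symm a9 a10
  have e11 : r2 = -q2 - b12 := third q2 b12 r2 a4.symm a11 a12
  subst e1 e3
  rw [e5, e7, e9, e11]
  exact blk0 x y p0 q2 b03 b12 hxy h0 h2 a1 a2 a3 a4

variable {t : ℕ}

/-- the root of a block -/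
def bR (t j : ℕ) (h : j < 6 * M t) : Node (t + 6) := ⟨(t + 4, j), by show t + 4 ≤ t + 6; omega, by
  show j < width (t + 4)
  rw [width4]; exact h⟩

/-- the children of the root of a block -/
def bP (t j : ℕ) (h : j < 12 * M t) : Node (t + 6) := ⟨(t + 5, j), by show t + 5 ≤ t + 6; omega, by
  show j < width (t + 5)
  rw [width5]; exact h⟩

theorem par_bP {j k : ℕ} (h : k < 12 * M t) (h' : j < 6 * M t) (e : k / 2 = j) :
    parN (bP t k h) = bR t j h' := by
  apply node_ext
  · rfl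
  · rw [num_parN (by show 1 < t + 5; omega)]
    exact e

theorem par_lf {j k : ℕ} (h : k < 24 * M t) (h' : j < 12 * M t) (e : k / 2 = j) :
    parN (lf t k h) = bP t j h' := by
  apply node_ext
  · rfl
  · rw [num_parN (by show 1 < t + 6; omega)]
    exact e

theorem lf_ne {a b : ℕ} (ha : a < 24 * M t) (hb : b < 24 * M t) (h : a ≠ b) :
    lf t a ha ≠ lf t b hb := fun e => h (congrArg num e)

theorem bP_ne {a b : ℕ} (ha : a < 12 * M t) (hb : b < 12 * M t) (h : a ≠ b) :
    bP t a ha ≠ bP t b hb := fun e => h (congrArg num e)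

theorem nx_lf {a b : ℕ} (ha : a < 24 * M t) (hb : b < 24 * M t) (h : nx (M t) a = b) :
    nxN (lf t a ha) = lf t b hb := by
  apply node_ext
  · rw [dep_nxN rfl]; rfl
  · rw [num_nxN rfl]; exact h

theorem pv_lf {a b : ℕ} (ha : a < 24 * M t) (hb : b < 24 * M t) (h : pv (M t) a = b) :
    pvN (lf t a ha) = lf t b hb := by
  apply node_ext
  · rw [dep_pvN rfl]; rfl
  · rw [num_pvN rfl]; exact h

theorem lf_congr {a b : ℕ} (ha : a < 24 * M t) (h : a = b) : lf t a ha = lf t b (h ▸ ha) := by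
  subst h; rfl

section
variable (f : Sym2 (Node (t + 6)) → Fin 3)

/-- the two edges on the left side of a block have the same colour -/
def U (t : ℕ) (f : Sym2 (Node (t + 6)) → Fin 3) (j : ℕ) (h : j < 6 * M t) : Prop :=
  f s(lf t (4 * j + 1) (by omega), nxN (lf t (4 * j + 1) (by omega))) =
    f s(lf t (4 * j + 3) (by omega), nxN (lf t (4 * j + 3) (by omega)))

theorem step (hf : ∀ u v w : Node (t + 6), (G t).Adj u v → (G t).Adj u w → v ≠ w →
    f s(u, v) ≠ f s(u, w)) (j : ℕ) (h : j < 6 * M t) :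
    U t f (su (M t) j) (su_lt (four_le_M t) h) ↔ ¬ U t f j h := by
  have hm := four_le_M t
  have hs := su_lt hm h
  -- the vertices
  set R := bR t j h with hR
  set P := bP t (2 * j) (by omega) with hP
  set Q := bP t (2 * j + 1) (by omega) with hQ
  set L0 := lf t (4 * j) (by omega) with hL0
  set L1 := lf t (4 * j + 1) (by omega) with hL1
  set L2 := lf t (4 * j + 2) (by omega) with hL2
  set L3 := lf t (4 * j + 3) (by omega) with hL3
  set K1 := lf t (4 * su (M t) j + 1) (by omega) with hK1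
  set K3 := lf t (4 * su (M t) j + 3) (by omega) with hK3
  -- parents
  have pP : parN P = R := par_bP _ _ (by omega)
  have pQ : parN Q = R := par_bP _ _ (by omega)
  have p0 : parN L0 = P := par_lf _ _ (by omega)
  have p1 : parN L1 = P := par_lf _ _ (by omega)
  have p2 : parN L2 = Q := par_lf _ _ (by omega)
  have p3 : parN L3 = Q := par_lf _ _ (by omega)
  -- leaf edges
  have n0 : nxN L0 = L3 := nx_lf _ _ nx_0
  have n2 : nxN L2 = L1 := nx_lf _ _ nx_2
  have v0 : pvN L0 = K1 := pv_lf _ _ pv_0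
  have v2 : pvN L2 = K3 := pv_lf _ _ pv_2
  have k1 : nxN K1 = L0 := by rw [← v0]; exact nxN_pvN rfl
  have k3 : nxN K3 = L2 := by rw [← v2]; exact nxN_pvN rfl
  have v1 : pvN L1 = L2 := by rw [← n2]; exact pvN_nxN rfl
  have v3 : pvN L3 = L0 := by rw [← n0]; exact pvN_nxN rfl
  -- adjacency
  have aRP : (G t).Adj R P := by
    have := adj_parN (v := P) (by show t + 5 ≠ 0; omega)
    rw [pP] at this; exact this.symm
  have aRQ : (G t).Adj R Q := by
    have := adj_parN (v := Q) (by show t + 5 ≠ 0; omega)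
    rw [pQ] at this; exact this.symm
  have a0P : (G t).Adj L0 P := by
    have := adj_parN (v := L0) (by show t + 6 ≠ 0; omega)
    rw [p0] at this; exact this
  have a1P : (G t).Adj L1 P := by
    have := adj_parN (v := L1) (by show t + 6 ≠ 0; omega)
    rw [p1] at this; exact this
  have a2Q : (G t).Adj L2 Q := by
    have := adj_parN (v := L2) (by show t + 6 ≠ 0; omega)
    rw [p2] at this; exact this
  have a3Q : (G t).Adj L3 Q := by
    have := adj_parN (v := L3) (by show t + 6 ≠ 0; omega)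
    rw [p3] at this; exact this
  have a03 : (G t).Adj L0 L3 := by
    have := adj_nxN (v := L0) rfl
    rw [n0] at this; exact this
  have a21 : (G t).Adj L2 L1 := by
    have := adj_nxN (v := L2) rfl
    rw [n2] at this; exact this
  have a0K : (G t).Adj L0 K1 := by
    have := adj_pvN (v := L0) rfl
    rw [v0] at this; exact this
  have a2K : (G t).Adj L2 K3 := by
    have := adj_pvN (v := L2) rfl
    rw [v2] at this; exact this
  have a1N : (G t).Adj L1 (nxN L1) := adj_nxN rfl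
  have a3N : (G t).Adj L3 (nxN L3) := adj_nxN rfl
  -- depths
  have dPleaf : ∀ w : Node (t + 6), dep w = t + 6 → P ≠ w := by
    intro w hw e
    have : dep P = t + 6 := by rw [e]; exact hw
    have h2 : dep P = t + 5 := rfl
    omega
  have dQleaf : ∀ w : Node (t + 6), dep w = t + 6 → Q ≠ w := by
    intro w hw e
    have : dep Q = t + 6 := by rw [e]; exact hw
    have h2 : dep Q = t + 5 := rfl
    omega
  have dRleaf : ∀ w : Node (t + 6), dep w = t + 6 → R ≠ w := by
    intro w hw e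
    have : dep R = t + 6 := by rw [e]; exact hw
    have h2 : dep R = t + 4 := rfl
    omega
  have hPQ : P ≠ Q := bP_ne _ _ (by omega)
  have h01 : L0 ≠ L1 := lf_ne _ _ (by omega)
  have h23 : L2 ≠ L3 := lf_ne _ _ (by omega)
  have h3K : L3 ≠ K1 := lf_ne _ _ (by omega)
  have h1K : L1 ≠ K3 := lf_ne _ _ (by omega)
  have h2N : L2 ≠ nxN L1 := by
    intro e
    have h5 := congrArg nxN e
    rw [n2] at h5
    have h6 : nxN (nxN L1) = L1 := h5.symm
    have h7 := congrArg num h6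
    rw [num_nxN (dep_nxN rfl), num_nxN rfl] at h7
    exact nx_nx_ne h7
  have h0N : L0 ≠ nxN L3 := by
    intro e
    have h5 := congrArg nxN e
    rw [n0] at h5
    have h6 : nxN (nxN L3) = L3 := h5.symm
    have h7 := congrArg num h6
    rw [num_nxN (dep_nxN rfl), num_nxN rfl] at h7
    exact nx_nx_ne h7
  have key := blk (f s(R, P)) (f s(R, Q)) (hf _ _ _ aRP aRQ hPQ)
    (f s(P, L0)) (by rw [Sym2.eq_swap (a := R)]; exact hf _ _ _ a0P.symm aRP.symm (dRleaf _ rfl).symm)
    (f s(P, L1)) (by rw [Sym2.eq_swap (a := R)]; exact hf _ _ _ a1P.symm aRP.symm (dRleaf _ rfl).symm)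
    (hf _ _ _ a0P.symm a1P.symm h01)
    (f s(Q, L2)) (by rw [Sym2.eq_swap (a := R)]; exact hf _ _ _ a2Q.symm aRQ.symm (dRleaf _ rfl).symm)
    (f s(Q, L3)) (by rw [Sym2.eq_swap (a := R)]; exact hf _ _ _ a3Q.symm aRQ.symm (dRleaf _ rfl).symm)
    (hf _ _ _ a2Q.symm a3Q.symm h23)
    (f s(L0, L3)) (by rw [Sym2.eq_swap (a := P)]; exact hf _ _ _ a03 a0P (dPleaf _ rfl).symm)
    (by rw [Sym2.eq_swap (a := L0), Sym2.eq_swap (a := Q)]
        exact hf _ _ _ a03.symm a3Q (dQleaf _ rfl).symm)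
    (f s(L2, L1)) (by rw [Sym2.eq_swap (a := L2), Sym2.eq_swap (a := P)]
                      exact hf _ _ _ a21.symm a1P (dPleaf _ rfl).symm)
    (by rw [Sym2.eq_swap (a := Q)]; exact hf _ _ _ a21 a2Q (dQleaf _ rfl).symm)
    (f s(L0, K1)) (by rw [Sym2.eq_swap (a := P)]; exact hf _ _ _ a0K a0P (dPleaf _ rfl).symm)
    (hf _ _ _ a0K a03 h3K.symm)
    (f s(L3, nxN L3)) (by rw [Sym2.eq_swap (a := Q)]; exact hf _ _ _ a3N a3Q (dQleaf _ (dep_nxN rfl)).symm)
    (by rw [Sym2.eq_swap (a := L0)]; exact hf _ _ _ a3N a03.symm h0N.symm)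
    (f s(L1, nxN L1)) (by rw [Sym2.eq_swap (a := P)]; exact hf _ _ _ a1N a1P (dPleaf _ (dep_nxN rfl)).symm)
    (by rw [Sym2.eq_swap (a := L2)]; exact hf _ _ _ a1N a21.symm h2N.symm)
    (f s(L2, K3)) (by rw [Sym2.eq_swap (a := Q)]; exact hf _ _ _ a2K a2Q (dQleaf _ rfl).symm)
    (hf _ _ _ a2K a21 h1K.symm)
  have e1 : U t f j h ↔ f s(L1, nxN L1) = f s(L3, nxN L3) := Iff.rfl
  have e2 : U t f (su (M t) j) hs ↔ f s(K1, nxN K1) = f s(K3, nxN K3) := Iff.rfl
  rw [e1, e2, k1, k3, Sym2.eq_swap (a := K1), Sym2.eq_swap (a := K3), key, not_not]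

theorem U_congr {j k : ℕ} (h : j < 6 * M t) (e : j = k) : U t f j h ↔ U t f k (e ▸ h) := by
  subst e; rfl

theorem step' (hf : ∀ u v w : Node (t + 6), (G t).Adj u v → (G t).Adj u w → v ≠ w →
    f s(u, v) ≠ f s(u, w)) {j k : ℕ} (h : j < 6 * M t) (e : su (M t) j = k) (hk : k < 6 * M t) :
    U t f k hk ↔ ¬ U t f j h := by
  rw [← step f hf j h]
  exact (U_congr f _ e).symm

theorem uncol : ¬ ∃ f : Sym2 (Node (t + 6)) → Fin 3, ∀ u v w : Node (t + 6), (G t).Adj u v →
    (G t).Adj u w → v ≠ w → f s(u, v) ≠ f s(u, w) := by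
  rintro ⟨f, hf⟩
  have hm := four_le_M t
  have s1 := step' f hf (j := 0) (k := 2) (by omega) (by rw [su_lo (b := 0) hm (by omega) (by omega) (by omega)]) (by omega)
  have s2 := step' f hf (j := 2) (k := 4) (by omega) (by rw [su_lo (b := 0) hm (by omega) (by omega) (by omega)]) (by omega)
  have s3 := step' f hf (j := 4) (k := 2 * M t) (by omega) (by rw [su_four (b := 0) hm (by omega) (by omega) (by omega)]; omega) (by omega)
  have s4 := step' f hf (j := 2 * M t) (k := 2 * M t + 2) (by omega) (by rw [su_lo (b := 2 * M t) hm (by omega) (by omega) (by omega)]) (by omega)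
  have s5 := step' f hf (j := 2 * M t + 2) (k := 2 * M t + 4) (by omega) (by rw [su_lo (b := 2 * M t) hm (by omega) (by omega) (by omega)]) (by omega)
  have s6 := step' f hf (j := 2 * M t + 4) (k := 4 * M t) (by omega) (by rw [su_four (b := 2 * M t) hm (by omega) (by omega) (by omega)]; omega) (by omega)
  have s7 := step' f hf (j := 4 * M t) (k := 4 * M t + 2) (by omega) (by rw [su_lo (b := 4 * M t) hm (by omega) (by omega) (by omega)]) (by omega)
  have s8 := step' f hf (j := 4 * M t + 2) (k := 4 * M t + 4) (by omega) (by rw [su_lo (b := 4 * M t) hm (by omega) (by omega) (by omega)]) (by omega)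
  have s9 := step' f hf (j := 4 * M t + 4) (k := 0) (by omega) (by rw [su_four' hm rfl]) (by omega)
  rw [s8, s7, s6, s5, s4, s3, s2, s1] at s9
  simp only [not_not] at s9
  exact iff_not_self s9

end

/-! ## The rotation -/

theorem leaf_eq (a : ℕ) : leaf (t + 6) a = lf t (a % (24 * M t)) (Nat.mod_lt _ (by have := four_le_M t; omega)) := by
  apply node_ext
  · rfl
  · show a % width (t + 6) = a % (24 * M t)
    rw [width6]

theorem rot_nx {x y : ℕ} (hx : x < 24 * M t) (hy : y < 24 * M t) (h : nx (M t) x = y) :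
    nx (M t) ((x + 8 * M t) % (24 * M t)) = (y + 8 * M t) % (24 * M t) := by
  rw [rl_eq hx, rl_eq hy, nx_rl (four_le_M t) hx, h]

theorem mod_lt' (x : ℕ) : x % (24 * M t) < 24 * M t :=
  Nat.mod_lt _ (by have := four_le_M t; omega)

theorem rot_adj {x y : ℕ} (hx : x < 24 * M t) (hy : y < 24 * M t)
    (h : (G t).Adj (lf t x hx) (lf t y hy)) :
    (G t).Adj (lf t ((x + 8 * M t) % (24 * M t)) (mod_lt' _))
      (lf t ((y + 8 * M t) % (24 * M t)) (mod_lt' _)) := by
  rcases adj_cases h with g | g | g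
  · have : t + 6 = t + 6 + 1 := g.1
    omega
  · have : t + 6 = t + 6 + 1 := g.1
    omega
  · rcases g.2.2 with k | k
    · have k2 : nx (M t) x = y := by
        have := congrArg num k
        rw [num_nxN rfl] at this
        exact this.symm
      have := adj_nxN (v := lf t ((x + 8 * M t) % (24 * M t)) (mod_lt' _)) rfl
      rw [nx_lf _ (mod_lt' _) (rot_nx hx hy k2)] at this
      exact this
    · have k2 : nx (M t) y = x := by
        have := congrArg num k
        rw [num_nxN rfl] at this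
        exact this.symm
      have := adj_nxN (v := lf t ((y + 8 * M t) % (24 * M t)) (mod_lt' _)) rfl
      rw [nx_lf _ (mod_lt' _) (rot_nx hy hx k2)] at this
      exact this.symm

theorem rot (a b : ℕ) (h : (G t).Adj (leaf (t + 6) a) (leaf (t + 6) b)) :
    (G t).Adj (leaf (t + 6) (a + width (t + 6) / 3)) (leaf (t + 6) (b + width (t + 6) / 3)) := by
  have hw : width (t + 6) / 3 = 8 * M t := by rw [width6]; omega
  rw [hw, leaf_eq, leaf_eq]
  rw [leaf_eq, leaf_eq] at h
  have h2 := rot_adj _ _ h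
  have ea : (a % (24 * M t) + 8 * M t) % (24 * M t) = (a + 8 * M t) % (24 * M t) := by
    rw [Nat.mod_add_mod]
  have eb : (b % (24 * M t) + 8 * M t) % (24 * M t) = (b + 8 * M t) % (24 * M t) := by
    rw [Nat.mod_add_mod]
  rw [lf_congr _ ea, lf_congr _ eb] at h2
  exact h2

end Pool.Agent.J4H90.Rot
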