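import Pool.Agent.J4H90.RotCol

/-!
# Rotation snarks: cyclic 4-edge-connectivity
-/

set_option autoImplicit false

namespace Pool.Agent.J4H90.Rot

open Pool.Agent.N366.RS

/-- the vertices, level by level -/
def nodeEquiv (i : ℕ) : Node i ≃ Σ d : Fin (i + 1), Fin (width d) where
  toFun v := ⟨⟨v.1.1, Nat.lt_succ_of_le v.2.1⟩, ⟨v.1.2, v.2.2⟩⟩
  invFun x := ⟨(x.1.1, x.2.1), Nat.le_of_lt_succ x.1.2, x.2.2⟩
  left_inv _ := rfl
  right_inv _ := rfl

instance (i : ℕ) : Fintype (Node i) := Fintype.ofEquiv _ (nodeEquiv i).symm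

instance (i : ℕ) : Finite (Node i) := inferInstance

variable {t : ℕ}

/-- the lower ends of the tree edges between `S` and its complement -/
def TS (S : Set (Node (t + 6))) : Set (Node (t + 6)) :=
  {w | dep w ≠ 0 ∧ ¬ (w ∈ S ↔ parN w ∈ S)}

/-- the leaf edges between `S` and its complement -/
def LS (S : Set (Node (t + 6))) : Set (Node (t + 6)) :=
  {w | dep w = t + 6 ∧ ¬ (w ∈ S ↔ nxN w ∈ S)}

theorem inj_par : Set.InjOn (fun w : Node (t + 6) => s(w, parN w)) {w | dep w ≠ 0} := by
  intro v hv w hw h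
  simp only [Sym2.eq_iff] at h
  rcases h with h | h
  · exact h.1
  · have h1 : dep v = dep w - 1 := by rw [h.1, dep_parN]
    have h2 : dep v - 1 = dep w := by rw [← dep_parN, h.2]
    have h3 : dep v ≠ 0 := hv
    have h4 : dep w ≠ 0 := hw
    omega

theorem inj_nx : Set.InjOn (fun w : Node (t + 6) => s(w, nxN w)) {w | dep w = t + 6} := by
  intro v hv w hw h
  simp only [Sym2.eq_iff] at h
  rcases h with h | h
  · exact h.1
  · exfalso
    have h1 : nxN (nxN w) = w := by rw [← h.1, h.2]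
    have h2 := congrArg num h1
    rw [num_nxN (dep_nxN hw), num_nxN hw] at h2
    exact nx_nx_ne h2

theorem count (S : Set (Node (t + 6))) (D : Set (Sym2 (Node (t + 6))))
    (hS : ∀ v w, (G t).Adj v w → s(v, w) ∉ D → (v ∈ S ↔ w ∈ S)) :
    (TS S).ncard + (LS S).ncard ≤ D.ncard := by
  have hf : D.Finite := Set.toFinite D
  have h1 : (fun w : Node (t + 6) => s(w, parN w)) '' TS S ⊆ D := by
    rintro _ ⟨w, hw, rfl⟩
    by_contra hn
    exact hw.2 (hS _ _ (adj_parN hw.1) hn)
  have h2 : (fun w : Node (t + 6) => s(w, nxN w)) '' LS S ⊆ D := by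
    rintro _ ⟨w, hw, rfl⟩
    by_contra hn
    exact hw.2 (hS _ _ (adj_nxN hw.1) hn)
  have h3 : Disjoint ((fun w : Node (t + 6) => s(w, parN w)) '' TS S)
      ((fun w : Node (t + 6) => s(w, nxN w)) '' LS S) := by
    rw [Set.disjoint_left]
    rintro _ ⟨v, hv, rfl⟩ ⟨w, hw, h⟩
    simp only [Sym2.eq_iff] at h
    have e1 : dep w = t + 6 := hw.1
    have e2 : dep (nxN w) = t + 6 := dep_nxN hw.1
    have e3 : dep (parN v) = dep v - 1 := dep_parN v
    have e4 : dep v ≠ 0 := hv.1
    rcases h with h | h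
    · rw [h.2] at e2
      rw [h.1] at e1
      omega
    · rw [h.2] at e2
      rw [h.1] at e1
      omega
  calc (TS S).ncard + (LS S).ncard
      = ((fun w : Node (t + 6) => s(w, parN w)) '' TS S).ncard +
        ((fun w : Node (t + 6) => s(w, nxN w)) '' LS S).ncard := by
        rw [Set.InjOn.ncard_image (inj_par.mono fun w hw => hw.1),
          Set.InjOn.ncard_image (inj_nx.mono fun w hw => hw.1)]
    _ = (((fun w : Node (t + 6) => s(w, parN w)) '' TS S) ∪
        ((fun w : Node (t + 6) => s(w, nxN w)) '' LS S)).ncard := by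
        rw [Set.ncard_union_eq h3 (Set.toFinite _) (Set.toFinite _)]
    _ ≤ D.ncard := Set.ncard_le_ncard (Set.union_subset h1 h2) hf

/-! ## The balance of the leaf edges -/

theorem nxN_of_ne {v : Node (t + 6)} (h : dep v ≠ t + 6) : nxN v = v := by
  unfold nxN; rw [dif_neg h]

theorem pvN_of_ne {v : Node (t + 6)} (h : dep v ≠ t + 6) : pvN v = v := by
  unfold pvN; rw [dif_neg h]

/-- the successor as a permutation -/
def nxE (t : ℕ) : Equiv.Perm (Node (t + 6)) where
  toFun := nxN
  invFun := pvN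
  left_inv v := by
    by_cases h : dep v = t + 6
    · exact pvN_nxN h
    · rw [nxN_of_ne h, pvN_of_ne h]
  right_inv v := by
    by_cases h : dep v = t + 6
    · exact nxN_pvN h
    · rw [pvN_of_ne h, nxN_of_ne h]

open Classical in
/-- the indicator function -/
noncomputable def ind (S : Set (Node (t + 6))) (v : Node (t + 6)) : ℤ := if v ∈ S then 1 else 0

theorem ind_congr {S : Set (Node (t + 6))} {v w : Node (t + 6)} (h : v ∈ S ↔ w ∈ S) :
    ind S v = ind S w := by
  unfold ind
  by_cases hv : v ∈ S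
  · rw [if_pos hv, if_pos (h.1 hv)]
  · rw [if_neg hv, if_neg (fun hw => hv (h.2 hw))]

/-- the change along a leaf edge -/
noncomputable def chg (S : Set (Node (t + 6))) (v : Node (t + 6)) : ℤ := ind S (nxN v) - ind S v

theorem chg_abs (S : Set (Node (t + 6))) (v : Node (t + 6)) : |chg S v| ≤ 1 := by
  unfold chg ind
  split_ifs <;> simp

theorem chg_ne {S : Set (Node (t + 6))} {v : Node (t + 6)} (h : v ∈ LS S) : chg S v ≠ 0 := by
  unfold chg ind
  have h2 := h.2
  by_cases h3 : v ∈ S <;> by_cases h4 : nxN v ∈ S <;> simp [h3, h4] at h2 ⊢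

theorem chg_eq {S : Set (Node (t + 6))} {v : Node (t + 6)} (h : v ∉ LS S) : chg S v = 0 := by
  unfold chg ind
  by_cases h5 : dep v = t + 6
  · have h2 : v ∈ S ↔ nxN v ∈ S := by
      by_contra hn
      exact h ⟨h5, hn⟩
    by_cases h3 : v ∈ S
    · rw [if_pos h3, if_pos (h2.1 h3)]; rfl
    · rw [if_neg h3, if_neg (fun h4 => h3 (h2.2 h4))]; rfl
  · rw [nxN_of_ne h5]; simp

theorem sum_chg (S : Set (Node (t + 6))) : ∑ v, chg S v = 0 := by
  unfold chg
  rw [Finset.sum_sub_distrib, sub_eq_zero]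
  exact Equiv.sum_comp (nxE t) (ind S)

open Classical in
theorem sum_chg' (S : Set (Node (t + 6))) : ∑ v ∈ (LS S).toFinset, chg S v = 0 := by
  rw [← sum_chg S]
  refine Finset.sum_subset (Finset.subset_univ _) fun v _ hv => chg_eq ?_
  simpa using hv

open Classical in
theorem LS_two {S : Set (Node (t + 6))} (h : (LS S).Nonempty) : 2 ≤ (LS S).ncard := by
  by_contra hlt
  have h1 : (LS S).ncard ≠ 0 := by
    obtain ⟨x, hx⟩ := h
    exact Set.ncard_ne_zero_of_mem hx
  have h2 : (LS S).ncard = 1 := by omega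
  obtain ⟨a, ha⟩ := Set.ncard_eq_one.1 h2
  have h3 := sum_chg' S
  have h4 : (LS S).toFinset = {a} := by
    ext x
    rw [Set.mem_toFinset, ha]
    simp
  rw [h4, Finset.sum_singleton] at h3
  exact chg_ne (S := S) (v := a) (by rw [ha]; rfl) h3

open Classical in
theorem no_pair {S : Set (Node (t + 6))} {x y : Node (t + 6)} (hx : x ∈ LS S) (hy : y ∈ LS S)
    (hxy : x ≠ y) (he : chg S x = chg S y) : 4 ≤ (LS S).ncard := by
  by_contra hlt
  have h0 := sum_chg' S
  have hxm : x ∈ (LS S).toFinset := by simpa using hx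
  have hym : y ∈ (LS S).toFinset.erase x := by
    rw [Finset.mem_erase]
    exact ⟨hxy.symm, by simpa using hy⟩
  rw [← Finset.add_sum_erase _ _ hxm, ← Finset.add_sum_erase _ _ hym] at h0
  have hc : (((LS S).toFinset.erase x).erase y).card ≤ 1 := by
    rw [Finset.card_erase_of_mem hym, Finset.card_erase_of_mem hxm]
    have : (LS S).toFinset.card = (LS S).ncard := (Set.ncard_eq_toFinset_card' _).symm
    omega
  have hb : |∑ v ∈ ((LS S).toFinset.erase x).erase y, chg S v| ≤ 1 := by
    calc |∑ v ∈ ((LS S).toFinset.erase x).erase y, chg S v|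
        ≤ ∑ v ∈ ((LS S).toFinset.erase x).erase y, |chg S v| := Finset.abs_sum_le_sum_abs _ _
      _ ≤ ∑ v ∈ ((LS S).toFinset.erase x).erase y, 1 := Finset.sum_le_sum fun v _ => chg_abs S v
      _ = (((LS S).toFinset.erase x).erase y).card := by simp
      _ ≤ 1 := by exact_mod_cast hc
  have h1 := chg_abs S x
  have h2 := chg_ne hx
  rw [abs_le] at h1 hb
  rw [← he] at h0
  omega

/-! ## Few tree edges -/

theorem const_off {S : Set (Node (t + 6))} {w r : Node (t + 6)} (hw : TS S ⊆ {w})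
    (hd : t + 5 ≤ dep w) (hr : dep r = 0) (n : ℕ) : ∀ v : Node (t + 6), dep v = n → v ≠ w →
      parN v ≠ w → (v ∈ S ↔ r ∈ S) := by
  induction n with
  | zero =>
    intro v hv _ _
    have : v = r := by
      apply node_ext
      · rw [hv, hr]
      · have h1 := num_lt_width v
        have h2 := num_lt_width r
        rw [hv] at h1
        rw [hr] at h2
        have h3 : width 0 = 1 := rfl
        omega
    rw [this]
  | succ n ih =>
    intro v hv h1 h2
    have h3 : v ∉ TS S := fun h => h1 (hw h)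
    have h4 : v ∈ S ↔ parN v ∈ S := by
      by_contra hn
      exact h3 ⟨by omega, hn⟩
    rw [h4]
    refine ih (parN v) (by rw [dep_parN]; omega) h2 ?_
    intro h5
    have h6 : dep (parN (parN v)) = dep w := by rw [h5]
    rw [dep_parN, dep_parN] at h6
    have := dep_le v
    omega

/-- a leaf edge has an end which is not `w` and not a child of `w` -/
theorem one_off {w a : Node (t + 6)} (ha : dep a = t + 6) :
    (a ≠ w ∧ parN a ≠ w) ∨ (nxN a ≠ w ∧ parN (nxN a) ≠ w) := by
  have h1 : dep (parN a) = t + 5 := by rw [dep_parN]; omega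
  have h2 : dep (parN (nxN a)) = t + 5 := by rw [dep_parN, dep_nxN ha]; omega
  by_cases h : dep w = t + 6
  · have h3 : parN a ≠ w := fun e => by rw [e] at h1; omega
    have h4 : parN (nxN a) ≠ w := fun e => by rw [e] at h2; omega
    by_cases h5 : a = w
    · right
      refine ⟨?_, h4⟩
      rw [← h5]
      exact nxN_ne ha
    · exact Or.inl ⟨h5, h3⟩
  · have h3 : a ≠ w := fun e => h (by rw [← e]; exact ha)
    have h4 : nxN a ≠ w := fun e => h (by rw [← e]; exact dep_nxN ha)
    by_cases h5 : parN a = w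
    · right
      refine ⟨h4, ?_⟩
      rw [← h5]
      exact sib1 ha
    · exact Or.inl ⟨h3, h5⟩

/-- the root -/
def rootN (t : ℕ) : Node (t + 6) := ⟨(0, 0), by show 0 ≤ t + 6; omega, by show 0 < 1; omega⟩

theorem low_edge {S : Set (Node (t + 6))} {w a b : Node (t + 6)} (hw : TS S ⊆ {w})
    (hd : t + 5 ≤ dep w) (ha : dep a = t + 6) (ha1 : a ∈ S) (ha2 : nxN a ∈ S)
    (hb : dep b = t + 6) (hb1 : b ∉ S) (hb2 : nxN b ∉ S) : False := by
  have hr : dep (rootN t) = 0 := rfl
  have h1 : rootN t ∈ S := by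
    rcases one_off (w := w) ha with h | h
    · exact (const_off hw hd hr _ a rfl h.1 h.2).1 ha1
    · exact (const_off hw hd hr _ (nxN a) rfl h.1 h.2).1 ha2
  rcases one_off (w := w) hb with h | h
  · exact hb1 ((const_off hw hd hr _ b rfl h.1 h.2).2 h1)
  · exact hb2 ((const_off hw hd hr _ (nxN b) rfl h.1 h.2).2 h1)

/-! ## No tree edge inside a block -/

theorem mono_block {S : Set (Node (t + 6))} (h : ∀ w ∈ TS S, dep w < t + 5) {j e : ℕ}
    (hj : j < 6 * M t) (he : e < 4) :
    lf t (4 * j + e) (by omega) ∈ S ↔ bR t j hj ∈ S := by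
  have h1 : lf t (4 * j + e) (by omega) ∉ TS S := fun hn => by
    have : t + 6 < t + 5 := h _ hn
    omega
  have h2 : bP t (2 * j + e / 2) (by omega) ∉ TS S := fun hn => by
    have : t + 5 < t + 5 := h _ hn
    omega
  have p1 : parN (lf t (4 * j + e) (by omega)) = bP t (2 * j + e / 2) (by omega) :=
    par_lf _ _ (by omega)
  have p2 : parN (bP t (2 * j + e / 2) (by omega)) = bR t j hj := par_bP _ _ (by omega)
  have h3 : lf t (4 * j + e) (by omega) ∈ S ↔ bP t (2 * j + e / 2) (by omega) ∈ S := by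
    rw [← p1]
    by_contra hn
    exact h1 ⟨by show t + 6 ≠ 0; omega, hn⟩
  have h4 : bP t (2 * j + e / 2) (by omega) ∈ S ↔ bR t j hj ∈ S := by
    rw [← p2]
    by_contra hn
    exact h2 ⟨by show t + 5 ≠ 0; omega, hn⟩
  exact h3.trans h4

theorem ok4 {m j e : ℕ} (hj : j < 6 * m) (he : e < 4) : 4 * j + e < 24 * m := by omega

theorem lf_surj {a : Node (t + 6)} (h : dep a = t + 6) : ∃ j, ∃ hj : j < 6 * M t, ∃ e, ∃ he : e < 4,
    a = lf t (4 * j + e) (ok4 hj he) := by
  have h1 := num_lt h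
  refine ⟨num a / 4, by omega, num a % 4, by omega, node_ext h ?_⟩
  show num a = 4 * (num a / 4) + num a % 4
  omega

theorem high_edges {S : Set (Node (t + 6))} (h : ∀ w ∈ TS S, dep w < t + 5)
    (hL : (LS S).Nonempty) : 4 ≤ (LS S).ncard := by
  have hm := four_le_M t
  obtain ⟨a, ha⟩ := hL
  obtain ⟨j, hj, e, he, rfl⟩ := lf_surj ha.1
  have hp := pr_lt hm hj
  have n1 : nxN (lf t (4 * j + 1) (by omega)) = lf t (4 * pr (M t) j) (by omega) := nx_lf _ _ nx_1
  have n3 : nxN (lf t (4 * j + 3) (by omega)) = lf t (4 * pr (M t) j + 2) (by omega) :=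
    nx_lf _ _ nx_3
  -- the connector between `j` and its predecessor is crossing
  have key : ¬ (bR t j hj ∈ S ↔ bR t (pr (M t) j) hp ∈ S) := by
    have h2 := ha.2
    rw [mono_block h hj he] at h2
    have e4 : e = 0 ∨ e = 1 ∨ e = 2 ∨ e = 3 := by omega
    rcases e4 with rfl | rfl | rfl | rfl
    · exfalso
      apply h2
      have : nxN (lf t (4 * j + 0) (by omega)) = lf t (4 * j + 3) (by omega) := nx_lf _ _ nx_0
      rw [this, mono_block h hj (by omega)]
    · rw [n1] at h2
      have := mono_block h hp (e := 0) (by omega)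
      rw [← this]
      exact h2
    · exfalso
      apply h2
      have : nxN (lf t (4 * j + 2) (by omega)) = lf t (4 * j + 1) (by omega) := nx_lf _ _ nx_2
      rw [this, mono_block h hj (by omega)]
    · rw [n3] at h2
      have := mono_block h hp (e := 2) (by omega)
      rw [← this]
      exact h2
  have m1 := mono_block h hj (e := 1) (by omega)
  have m3 := mono_block h hj (e := 3) (by omega)
  have k0 := mono_block h hp (e := 0) (by omega)
  have k2 := mono_block h hp (e := 2) (by omega)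
  have l1 : lf t (4 * j + 1) (by omega) ∈ LS S := by
    refine ⟨rfl, ?_⟩
    rw [n1, m1]
    intro hh
    exact key (hh.trans k0)
  have l3 : lf t (4 * j + 3) (by omega) ∈ LS S := by
    refine ⟨rfl, ?_⟩
    rw [n3, m3]
    intro hh
    exact key (hh.trans k2)
  refine no_pair l1 l3 (lf_ne _ _ (by omega)) ?_
  have k0' : lf t (4 * pr (M t) j) (by omega) ∈ S ↔ bR t (pr (M t) j) hp ∈ S := k0
  unfold chg
  rw [n1, n3, ind_congr (k0'.trans k2.symm), ind_congr (m1.trans m3.symm)]

/-! ## No crossing leaf edge -/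

theorem pr_lt_self {m j : ℕ} (hm : 4 ≤ m) (hj : j < 6 * m) (h2 : 2 ≤ j) : pr m j < j := by
  obtain ⟨b, hb, h1, h3⟩ := loc hj
  rcases pr_cases hb h1 h3 with h | h | h | h | h | h
  · omega
  · rw [h.1, pr_first hm hb h.2]; omega
  · omega
  · rw [h.1, pr_second hm hb h.2]; omega
  · rw [pr_lo hm hb h.1 h.2]; omega
  · rw [pr_hi hb h.1 h.2]; omega

section
variable {S : Set (Node (t + 6))}

theorem TS_four {S : Set (Node (t + 6))} (k : Node (t + 6) → ℕ) {a b c d : ℕ} (hab : a ≠ b)
    (hac : a ≠ c) (had : a ≠ d) (hbc : b ≠ c) (hbd : b ≠ d) (hcd : c ≠ d)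
    (ha : ∃ w ∈ TS S, k w = a) (hb : ∃ w ∈ TS S, k w = b) (hc : ∃ w ∈ TS S, k w = c)
    (hd : ∃ w ∈ TS S, k w = d) : 4 ≤ (TS S).ncard := by
  have h1 : ({a, b, c, d} : Set ℕ) ⊆ k '' TS S := by
    intro x hx
    simp only [Set.mem_insert_iff, Set.mem_singleton_iff] at hx
    rcases hx with rfl | rfl | rfl | rfl
    · exact ha
    · exact hb
    · exact hc
    · exact hd
  have h2 : ({a, b, c, d} : Set ℕ).ncard = 4 := by
    rw [Set.ncard_insert_of_notMem (by simp [hab, hac, had]),
      Set.ncard_insert_of_notMem (by simp [hbc, hbd]), Set.ncard_pair hcd]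
  calc 4 = ({a, b, c, d} : Set ℕ).ncard := h2.symm
    _ ≤ (k '' TS S).ncard := Set.ncard_le_ncard h1 (Set.toFinite _)
    _ ≤ (TS S).ncard := Set.ncard_image_le (Set.toFinite _)

theorem edge_eq (hL : LS S = ∅) {a : Node (t + 6)} (ha : dep a = t + 6) : a ∈ S ↔ nxN a ∈ S := by
  by_contra hn
  have : a ∈ LS S := ⟨ha, hn⟩
  rw [hL] at this
  exact this

theorem sib_cross {a b : Node (t + 6)} (ha : dep a ≠ 0) (hb : dep b ≠ 0) (hp : parN a = parN b)
    (h : ¬ (a ∈ S ↔ b ∈ S)) : a ∈ TS S ∨ b ∈ TS S := by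
  by_contra hn
  push Not at hn
  apply h
  have h1 : a ∈ S ↔ parN a ∈ S := by
    by_contra h1
    exact hn.1 ⟨ha, h1⟩
  have h2 : b ∈ S ↔ parN b ∈ S := by
    by_contra h2
    exact hn.2 ⟨hb, h2⟩
  rw [h1, h2, hp]

theorem block_const (hT : (TS S).ncard ≤ 3) (hL : LS S = ∅) {j : ℕ} (hj : j < 6 * M t) :
    lf t (4 * j) (by omega) ∈ S ↔ lf t (4 * j + 2) (by omega) ∈ S := by
  by_contra hne
  have hm := four_le_M t
  have hp := pr_lt hm hj
  have hpj := pr_ne hm hj
  have e0 : lf t (4 * j) (by omega) ∈ S ↔ lf t (4 * j + 3) (by omega) ∈ S := by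
    have := edge_eq hL (a := lf t (4 * j) (by omega)) rfl
    rwa [nx_lf _ (by omega : 4 * j + 3 < 24 * M t) nx_0] at this
  have e2 : lf t (4 * j + 2) (by omega) ∈ S ↔ lf t (4 * j + 1) (by omega) ∈ S := by
    have := edge_eq hL (a := lf t (4 * j + 2) (by omega)) rfl
    rwa [nx_lf _ (by omega : 4 * j + 1 < 24 * M t) nx_2] at this
  have e1 : lf t (4 * j + 1) (by omega) ∈ S ↔ lf t (4 * pr (M t) j) (by omega) ∈ S := by
    have := edge_eq hL (a := lf t (4 * j + 1) (by omega)) rfl
    rwa [nx_lf _ (by omega : 4 * pr (M t) j < 24 * M t) nx_1] at this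
  have e3 : lf t (4 * j + 3) (by omega) ∈ S ↔ lf t (4 * pr (M t) j + 2) (by omega) ∈ S := by
    have := edge_eq hL (a := lf t (4 * j + 3) (by omega)) rfl
    rwa [nx_lf _ (by omega : 4 * pr (M t) j + 2 < 24 * M t) nx_3] at this
  have f0 : lf t (4 * pr (M t) j) (by omega) ∈ S ↔ lf t (4 * pr (M t) j + 3) (by omega) ∈ S := by
    have := edge_eq hL (a := lf t (4 * pr (M t) j) (by omega)) rfl
    rwa [nx_lf _ (by omega : 4 * pr (M t) j + 3 < 24 * M t) nx_0] at this
  have f2 : lf t (4 * pr (M t) j + 2) (by omega) ∈ S ↔ lf t (4 * pr (M t) j + 1) (by omega) ∈ S := by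
    have := edge_eq hL (a := lf t (4 * pr (M t) j + 2) (by omega)) rfl
    rwa [nx_lf _ (by omega : 4 * pr (M t) j + 1 < 24 * M t) nx_2] at this
  have gen : ∀ (x : ℕ) (hx : x < 12 * M t),
      ¬ (lf t (2 * x) (by omega) ∈ S ↔ lf t (2 * x + 1) (by omega) ∈ S) →
      ∃ w ∈ TS S, num w / 2 = x := by
    intro x hx hne
    have hpar : parN (lf t (2 * x) (by omega)) = parN (lf t (2 * x + 1) (by omega)) := by
      rw [par_lf _ hx (by omega), par_lf _ hx (by omega)]
    rcases sib_cross (S := S) (by show t + 6 ≠ 0; omega) (by show t + 6 ≠ 0; omega) hpar hne with h | h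
    · exact ⟨_, h, by show 2 * x / 2 = x; omega⟩
    · exact ⟨_, h, by show (2 * x + 1) / 2 = x; omega⟩
  have r : ∀ (x y : ℕ) (hx : x < 24 * M t) (_ : x = y), (lf t x hx ∈ S ↔ lf t y (by omega) ∈ S) := by
    intro x y hx hxy
    subst hxy
    rfl
  have := TS_four (S := S) (fun w => num w / 2) (a := 2 * j) (b := 2 * j + 1) (c := 2 * pr (M t) j)
    (d := 2 * pr (M t) j + 1) (by omega) (by omega) (by omega) (by omega) (by omega) (by omega)
    (gen _ (by omega) (by
      rw [r (2 * (2 * j)) (4 * j) _ (by omega), r (2 * (2 * j) + 1) (4 * j + 1) _ (by omega), ← e2]; exact hne))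
    (gen _ (by omega) (by
      rw [r (2 * (2 * j + 1)) (4 * j + 2) _ (by omega), r (2 * (2 * j + 1) + 1) (4 * j + 3) _ (by omega), ← e0]
      exact fun h => hne h.symm))
    (gen _ (by omega) (by
      rw [r (2 * (2 * pr (M t) j)) (4 * pr (M t) j) _ (by omega),
        r (2 * (2 * pr (M t) j) + 1) (4 * pr (M t) j + 1) _ (by omega), ← f2, ← e1, ← e3,
        ← e2, ← e0]
      exact fun h => hne h.symm))
    (gen _ (by omega) (by
      rw [r (2 * (2 * pr (M t) j + 1)) (4 * pr (M t) j + 2) _ (by omega),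
        r (2 * (2 * pr (M t) j + 1) + 1) (4 * pr (M t) j + 3) _ (by omega), ← f0, ← e1,
        ← e3, ← e2, ← e0]
      exact hne))
  omega

/-- the common value on the leaves of a block -/
def gv (S : Set (Node (t + 6))) (j : ℕ) : Prop := ∃ h : j < 6 * M t, lf t (4 * j) (by omega) ∈ S

theorem gv_iff {j : ℕ} (hj : j < 6 * M t) : gv S j ↔ lf t (4 * j) (by omega) ∈ S :=
  ⟨fun h => h.2, fun h => ⟨hj, h⟩⟩

theorem gv_all (hT : (TS S).ncard ≤ 3) (hL : LS S = ∅) {j e : ℕ} (hj : j < 6 * M t) (he : e < 4) :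
    lf t (4 * j + e) (by omega) ∈ S ↔ gv S j := by
  rw [gv_iff hj]
  have hb := block_const hT hL hj
  have e0 : lf t (4 * j) (by omega) ∈ S ↔ lf t (4 * j + 3) (by omega) ∈ S := by
    have := edge_eq hL (a := lf t (4 * j) (by omega)) rfl
    rwa [nx_lf _ (by omega : 4 * j + 3 < 24 * M t) nx_0] at this
  have e2 : lf t (4 * j + 2) (by omega) ∈ S ↔ lf t (4 * j + 1) (by omega) ∈ S := by
    have := edge_eq hL (a := lf t (4 * j + 2) (by omega)) rfl
    rwa [nx_lf _ (by omega : 4 * j + 1 < 24 * M t) nx_2] at this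
  have e4 : e = 0 ∨ e = 1 ∨ e = 2 ∨ e = 3 := by omega
  rcases e4 with rfl | rfl | rfl | rfl
  · exact Iff.rfl
  · rw [← e2, hb]
  · exact hb.symm
  · exact e0.symm

theorem gv_pr (hT : (TS S).ncard ≤ 3) (hL : LS S = ∅) {j : ℕ} (hj : j < 6 * M t) :
    gv S j ↔ gv S (pr (M t) j) := by
  have hm := four_le_M t
  have hp := pr_lt hm hj
  have e1 : lf t (4 * j + 1) (by omega) ∈ S ↔ lf t (4 * pr (M t) j) (by omega) ∈ S := by
    have := edge_eq hL (a := lf t (4 * j + 1) (by omega)) rfl
    rwa [nx_lf _ (by omega : 4 * pr (M t) j < 24 * M t) nx_1] at this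
  rw [← gv_all hT hL hj (e := 1) (by omega), e1]
  exact (gv_iff hp).symm

theorem gv_two (hT : (TS S).ncard ≤ 3) (hL : LS S = ∅) : ∀ j : ℕ, j < 6 * M t →
    ((gv S j ↔ gv S 0) ∨ (gv S j ↔ gv S 1)) := by
  intro j
  induction j using Nat.strong_induction_on with
  | _ j ih =>
    intro hj
    have hm := four_le_M t
    by_cases h0 : j = 0
    · subst h0; exact Or.inl Iff.rfl
    by_cases h1 : j = 1
    · subst h1; exact Or.inr Iff.rfl
    rw [gv_pr hT hL hj]
    exact ih _ (pr_lt_self hm hj (by omega)) (pr_lt hm hj)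

theorem gv_five (hT : (TS S).ncard ≤ 3) (hL : LS S = ∅) {k : ℕ} (h5 : 5 ≤ k) :
    k < 2 * M t → (gv S k ↔ gv S 5) := by
  induction k, h5 using Nat.le_induction with
  | base => intro _; exact Iff.rfl
  | succ k hk ih =>
    intro h
    rw [gv_pr hT hL (by omega), pr_hi (b := 0) (Or.inl rfl) (by omega) (by omega)]
    exact ih (by omega)

/-- the key of a vertex of one of the last three levels: the number of its ancestor -/
def key3 (w : Node (t + 6)) : ℕ :=
  if dep w = t + 6 then num w / 8 else if dep w = t + 5 then num w / 4 else num w / 2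

theorem mixed {i : ℕ} (hi : i < 3 * M t) (h : ¬ (gv S (2 * i) ↔ gv S (2 * i + 1))) :
    ∃ w ∈ TS S, key3 w = i := by
  rw [gv_iff (by omega), gv_iff (by omega)] at h
  by_contra hno
  push Not at hno
  apply h
  have up : ∀ v w : Node (t + 6), parN v = w → dep v ≠ 0 → key3 v = i → (v ∈ S ↔ w ∈ S) := by
    intro v w hvw hv hk
    by_contra hn
    rw [← hvw] at hn
    exact hno v ⟨hv, hn⟩ hk
  have k6 : ∀ (a : ℕ) (ha : a < 24 * M t), key3 (lf t a ha) = a / 8 := by
    intro a ha
    unfold key3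
    rw [if_pos (show dep (lf t a ha) = t + 6 from rfl)]
    rfl
  have k5 : ∀ (a : ℕ) (ha : a < 12 * M t), key3 (bP t a ha) = a / 4 := by
    intro a ha
    unfold key3
    rw [if_neg (show ¬ dep (bP t a ha) = t + 6 by show ¬ t + 5 = t + 6; omega),
      if_pos (show dep (bP t a ha) = t + 5 from rfl)]
    rfl
  have k4 : ∀ (a : ℕ) (ha : a < 6 * M t), key3 (bR t a ha) = a / 2 := by
    intro a ha
    unfold key3
    rw [if_neg (show ¬ dep (bR t a ha) = t + 6 by show ¬ t + 4 = t + 6; omega),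
      if_neg (show ¬ dep (bR t a ha) = t + 5 by show ¬ t + 4 = t + 5; omega)]
    rfl
  have a1 := up (lf t (4 * (2 * i)) (by omega)) (bP t (4 * i) (by omega)) (par_lf _ _ (by omega))
    (by show t + 6 ≠ 0; omega) (by rw [k6]; omega)
  have a2 := up (bP t (4 * i) (by omega)) (bR t (2 * i) (by omega)) (par_bP _ _ (by omega))
    (by show t + 5 ≠ 0; omega) (by rw [k5]; omega)
  have a3 := up (bR t (2 * i) (by omega)) _ rfl (by show t + 4 ≠ 0; omega) (by rw [k4]; omega)
  have b1 := up (lf t (4 * (2 * i + 1)) (by omega)) (bP t (4 * i + 2) (by omega))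
    (par_lf _ _ (by omega)) (by show t + 6 ≠ 0; omega) (by rw [k6]; omega)
  have b2 := up (bP t (4 * i + 2) (by omega)) (bR t (2 * i + 1) (by omega)) (par_bP _ _ (by omega))
    (by show t + 5 ≠ 0; omega) (by rw [k5]; omega)
  have b3 := up (bR t (2 * i + 1) (by omega)) _ rfl (by show t + 4 ≠ 0; omega) (by rw [k4]; omega)
  have hpp : parN (bR t (2 * i) (by omega)) = parN (bR t (2 * i + 1) (by omega)) := by
    apply node_ext
    · rfl
    · rw [num_parN (by show 1 < t + 4; omega), num_parN (by show 1 < t + 4; omega)]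
      show 2 * i / 2 = (2 * i + 1) / 2
      omega
  rw [a1, a2, a3, b1, b2, b3, hpp]

theorem no_leaf_edge (hT : (TS S).ncard ≤ 3) (hL : LS S = ∅) {a b : Node (t + 6)}
    (ha : dep a = t + 6) (ha1 : a ∈ S) (hb : dep b = t + 6) (hb1 : b ∉ S) : False := by
  have hm := four_le_M t
  obtain ⟨ja, hja, ea, hea, rfl⟩ := lf_surj ha
  obtain ⟨jb, hjb, eb, heb, rfl⟩ := lf_surj hb
  rw [gv_all hT hL hja hea] at ha1
  rw [gv_all hT hL hjb heb] at hb1
  have h01 : ¬ (gv S 0 ↔ gv S 1) := by
    intro h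
    have h1 := gv_two hT hL ja hja
    have h2 := gv_two hT hL jb hjb
    rw [← h] at h1 h2
    tauto
  have g2 : gv S 2 ↔ gv S 0 := by
    rw [gv_pr hT hL (by omega), pr_lo (b := 0) hm (by omega) (by omega) (by omega)]
  have g4 : gv S 4 ↔ gv S 0 := by
    rw [gv_pr hT hL (by omega), pr_lo (b := 0) hm (by omega) (by omega) (by omega)]
    exact g2
  have g3 : gv S 3 ↔ gv S 1 := by
    rw [gv_pr hT hL (by omega), pr_lo (b := 0) hm (by omega) (by omega) (by omega)]
  have g5 : gv S 5 ↔ gv S 1 := by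
    rw [gv_pr hT hL (by omega), pr_lo (b := 0) hm (by omega) (by omega) (by omega)]
    exact g3
  have gm : gv S (2 * M t) ↔ gv S 0 := by
    rw [gv_pr hT hL (by omega), pr_first hm (by omega) (by omega), Nat.sub_self, Nat.zero_add]
    exact g4
  have gm1 : gv S (2 * M t + 1) ↔ gv S 1 := by
    rw [gv_pr hT hL (by omega), pr_second hm (by omega) (by omega),
      gv_five hT hL (by omega) (by omega)]
    exact g5
  have := TS_four (S := S) key3 (a := 0) (b := 1) (c := 2) (d := M t) (by omega) (by omega) (by omega)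
    (by omega) (by omega) (by omega)
    (mixed (by omega) h01) (mixed (by omega) (by rw [show 2 * 1 = 2 by rfl, g2, g3]; exact h01))
    (mixed (by omega) (by rw [show 2 * 2 = 4 by rfl, g4, g5]; exact h01))
    (mixed (by omega) (by rw [gm, gm1]; exact h01))
  omega

end

theorem cut {S : Set (Node (t + 6))} (h : (TS S).ncard + (LS S).ncard ≤ 3) {a b : Node (t + 6)}
    (ha : dep a = t + 6) (ha1 : a ∈ S) (ha2 : nxN a ∈ S)
    (hb : dep b = t + 6) (hb1 : b ∉ S) (hb2 : nxN b ∉ S) : False := by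
  rcases Set.eq_empty_or_nonempty (LS S) with hL | hL
  · exact no_leaf_edge (by omega) hL ha ha1 hb hb1
  · have h2 := LS_two hL
    by_cases hlow : ∃ w ∈ TS S, t + 5 ≤ dep w
    · obtain ⟨w, hw, hd⟩ := hlow
      refine low_edge (w := w) ?_ hd ha ha1 ha2 hb hb1 hb2
      intro x hx
      by_contra hne
      have hne' : x ≠ w := hne
      have : ({x, w} : Set (Node (t + 6))).ncard ≤ (TS S).ncard := by
        apply Set.ncard_le_ncard _ (Set.toFinite _)
        rintro y (rfl | rfl)
        · exact hx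
        · exact hw
      rw [Set.ncard_pair hne'] at this
      omega
    · push Not at hlow
      have := high_edges hlow hL
      omega

theorem cyclic (D : Set (Sym2 (Node (t + 6)))) (hD3 : D.ncard < 4)
    (u v : Node (t + 6)) (c : ((G t).deleteEdges D).Walk u u) (d : ((G t).deleteEdges D).Walk v v)
    (hc : c.IsCycle) (hd : d.IsCycle) : ((G t).deleteEdges D).Reachable u v := by
  by_contra hn
  have hle : (G t).deleteEdges D ≤ G t := SimpleGraph.deleteEdges_le D
  obtain ⟨a, ha, ha6, ha'⟩ := cyc_leaf (c.mapLe hle) (hc.mapLe hle)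
  obtain ⟨b, hb, hb6, hb'⟩ := cyc_leaf (d.mapLe hle) (hd.mapLe hle)
  rw [SimpleGraph.Walk.support_mapLe_eq_support] at ha ha' hb hb'
  have hS : ∀ x y, (G t).Adj x y → s(x, y) ∉ D →
      (x ∈ {w | ((G t).deleteEdges D).Reachable u w} ↔
        y ∈ {w | ((G t).deleteEdges D).Reachable u w}) := by
    intro x y hxy hxyD
    have hadj : ((G t).deleteEdges D).Adj x y := by
      rw [SimpleGraph.deleteEdges_adj]
      exact ⟨hxy, hxyD⟩
    exact ⟨fun h => h.trans hadj.reachable, fun h => h.trans hadj.symm.reachable⟩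
  have hcount := count _ D hS
  refine cut (S := {w | ((G t).deleteEdges D).Reachable u w}) (by omega) ha6
    (c.takeUntil a ha).reachable (c.takeUntil _ ha').reachable hb6 ?_ ?_
  · intro h
    exact hn (SimpleGraph.Reachable.trans h (d.takeUntil b hb).reachable.symm)
  · intro h
    exact hn (SimpleGraph.Reachable.trans h (d.takeUntil _ hb').reachable.symm)

end Pool.Agent.J4H90.Rot
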