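import Mathlib

/-!
# Rotation snarks: the successor of a block, the successor of a leaf (arithmetic)

There are `6 m` blocks (`2 m` in each third), numbered `0, …, 6 m - 1`; the leaves `4 j, …, 4 j + 3` belong
to the block `j`. `su` is a permutation of the blocks with two cycles; one of them has length nine and
contains the blocks `0`, `2`, `4` of every third.
-/

set_option autoImplicit false

namespace Pool.Agent.J4H90.Rot

/-- the first block of the third of `j` -/
def bs (m j : ℕ) : ℕ := if j < 2 * m then 0 else if j < 4 * m then 2 * m else 4 * m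

/-- the successor inside a third (`2 m` and `2 m + 1` are the blocks `0`, `1` of the next third) -/
def sl (m k : ℕ) : ℕ :=
  if k < 4 then k + 2 else if k = 4 then 2 * m else if k + 1 = 2 * m then 2 * m + 1 else k + 1

/-- the predecessor inside a third (shifted by `2 m`) -/
def pl (m k : ℕ) : ℕ :=
  if k = 0 then 4 else if k = 1 then 2 * m - 1 else if k < 6 then 2 * m + (k - 2)
  else 2 * m + (k - 1)

/-- reduction modulo `6 m` -/
def wr (m x : ℕ) : ℕ := if x < 6 * m then x else x - 6 * m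

/-- the successor of a block -/
def su (m j : ℕ) : ℕ := wr m (bs m j + sl m (j - bs m j))

/-- the predecessor of a block -/
def pr (m j : ℕ) : ℕ := wr m (bs m j + 4 * m + pl m (j - bs m j))

/-- rotation by one third of the blocks -/
def rb (m j : ℕ) : ℕ := if j < 4 * m then j + 2 * m else j - 4 * m

theorem bs_spec (m j : ℕ) : (bs m j = 0 ∧ j < 2 * m) ∨ (bs m j = 2 * m ∧ 2 * m ≤ j ∧ j < 4 * m) ∨
    (bs m j = 4 * m ∧ 4 * m ≤ j) := by
  unfold bs; split_ifs <;> omega

theorem sl_spec (m k : ℕ) : (sl m k = k + 2 ∧ k < 4) ∨ (sl m k = 2 * m ∧ k = 4) ∨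
    (sl m k = 2 * m + 1 ∧ 4 < k ∧ k + 1 = 2 * m) ∨ (sl m k = k + 1 ∧ 4 < k ∧ k + 1 ≠ 2 * m) := by
  unfold sl; split_ifs <;> omega

theorem pl_spec (m k : ℕ) : (pl m k = 4 ∧ k = 0) ∨ (pl m k = 2 * m - 1 ∧ k = 1) ∨
    (pl m k = 2 * m + k - 2 ∧ 2 ≤ k ∧ k < 6) ∨ (pl m k = 2 * m + k - 1 ∧ 6 ≤ k) := by
  unfold pl; split_ifs <;> omega

theorem wr_spec (m x : ℕ) : (wr m x = x ∧ x < 6 * m) ∨ (wr m x + 6 * m = x ∧ 6 * m ≤ x) := by
  unfold wr; split_ifs <;> omega

theorem rb_spec (m j : ℕ) : (rb m j = j + 2 * m ∧ j < 4 * m) ∨ (rb m j + 4 * m = j ∧ 4 * m ≤ j) := by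
  unfold rb; split_ifs <;> omega

theorem bs_of {m j b : ℕ} (hb : b = 0 ∨ b = 2 * m ∨ b = 4 * m) (h1 : b ≤ j) (h2 : j < b + 2 * m) :
    bs m j = b := by
  rcases hb with rfl | rfl | rfl
  · unfold bs; rw [if_pos (by omega)]
  · unfold bs; rw [if_neg (by omega), if_pos (by omega)]
  · unfold bs; rw [if_neg (by omega), if_neg (by omega)]

theorem loc {m j : ℕ} (hj : j < 6 * m) : ∃ b, (b = 0 ∨ b = 2 * m ∨ b = 4 * m) ∧ b ≤ j ∧
    j < b + 2 * m := by
  rcases lt_or_ge j (2 * m) with h | h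
  · exact ⟨0, Or.inl rfl, by omega, by omega⟩
  · rcases lt_or_ge j (4 * m) with h' | h'
    · exact ⟨2 * m, Or.inr (Or.inl rfl), by omega, by omega⟩
    · exact ⟨4 * m, Or.inr (Or.inr rfl), by omega, by omega⟩

section
variable {m j b : ℕ}

theorem wr_lt' {x : ℕ} (h : x < 6 * m) : wr m x = x := by unfold wr; rw [if_pos h]

theorem wr_ge' {x : ℕ} (h : 6 * m ≤ x) : wr m x = x - 6 * m := by
  unfold wr; rw [if_neg (by omega)]

theorem su_lo (hm : 4 ≤ m) (hb : b = 0 ∨ b = 2 * m ∨ b = 4 * m) (h1 : b ≤ j) (h2 : j < b + 4) :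
    su m j = j + 2 := by
  have e : b + sl m (j - b) = j + 2 := by unfold sl; rw [if_pos (by omega)]; omega
  unfold su
  rw [bs_of hb h1 (by omega), e, wr_lt' (by omega)]

theorem su_four (hm : 4 ≤ m) (hb : b = 0 ∨ b = 2 * m ∨ b = 4 * m) (h1 : j = b + 4) (h2 : b < 4 * m) :
    su m j = b + 2 * m := by
  have e : b + sl m (j - b) = b + 2 * m := by
    unfold sl; rw [if_neg (by omega), if_pos (by omega)]
  unfold su
  rw [bs_of hb (by omega) (by omega), e, wr_lt' (by omega)]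

theorem su_four' (hm : 4 ≤ m) (h1 : j = 4 * m + 4) : su m j = 0 := by
  have e : 4 * m + sl m (j - 4 * m) = 6 * m := by
    unfold sl; rw [if_neg (by omega), if_pos (by omega)]; omega
  unfold su
  rw [bs_of (b := 4 * m) (Or.inr (Or.inr rfl)) (by omega) (by omega), e, wr_ge' le_rfl]; omega

theorem su_hi (hb : b = 0 ∨ b = 2 * m ∨ b = 4 * m) (h1 : b + 4 < j) (h2 : j + 1 < b + 2 * m) :
    su m j = j + 1 := by
  have e : b + sl m (j - b) = j + 1 := by
    unfold sl; rw [if_neg (by omega), if_neg (by omega), if_neg (by omega)]; omega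
  unfold su
  rw [bs_of hb (by omega) (by omega), e, wr_lt' (by omega)]

theorem su_end (hm : 4 ≤ m) (hb : b = 0 ∨ b = 2 * m ∨ b = 4 * m) (h1 : j + 1 = b + 2 * m)
    (h2 : b < 4 * m) : su m j = b + 2 * m + 1 := by
  have e : b + sl m (j - b) = b + 2 * m + 1 := by
    unfold sl; rw [if_neg (by omega), if_neg (by omega), if_pos (by omega)]; omega
  unfold su
  rw [bs_of hb (by omega) (by omega), e, wr_lt' (by omega)]

theorem su_end' (hm : 4 ≤ m) (h1 : j + 1 = 6 * m) : su m j = 1 := by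
  have e : 4 * m + sl m (j - 4 * m) = 6 * m + 1 := by
    unfold sl; rw [if_neg (by omega), if_neg (by omega), if_pos (by omega)]; omega
  unfold su
  rw [bs_of (b := 4 * m) (Or.inr (Or.inr rfl)) (by omega) (by omega), e, wr_ge' (by omega)]; omega

theorem pr_zero (hm : 4 ≤ m) : pr m 0 = 4 * m + 4 := by
  have e : 0 + 4 * m + pl m (0 - 0) = 4 * m + 4 := by unfold pl; rw [if_pos (by omega)]; omega
  unfold pr
  rw [bs_of (b := 0) (Or.inl rfl) (by omega) (by omega), e, wr_lt' (by omega)]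

theorem pr_first (hm : 4 ≤ m) (hb : b = 0 ∨ b = 2 * m ∨ b = 4 * m) (h : 0 < b) :
    pr m b = b - 2 * m + 4 := by
  have e : b + 4 * m + pl m (b - b) = b + 4 * m + 4 := by unfold pl; rw [if_pos (by omega)]
  unfold pr
  rw [bs_of hb (by omega) (by omega), e, wr_ge' (by omega)]
  omega

theorem pr_one (hm : 4 ≤ m) : pr m 1 = 6 * m - 1 := by
  have e : 0 + 4 * m + pl m (1 - 0) = 6 * m - 1 := by
    unfold pl; rw [if_neg (by omega), if_pos (by omega)]; omega
  unfold pr
  rw [bs_of (b := 0) (Or.inl rfl) (by omega) (by omega), e, wr_lt' (by omega)]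

theorem pr_second (hm : 4 ≤ m) (hb : b = 0 ∨ b = 2 * m ∨ b = 4 * m) (h : 0 < b) :
    pr m (b + 1) = b - 1 := by
  have e : b + 4 * m + pl m (b + 1 - b) = b + 6 * m - 1 := by
    unfold pl; rw [if_neg (by omega), if_pos (by omega)]; omega
  unfold pr
  rw [bs_of hb (by omega) (by omega), e, wr_ge' (by omega)]
  omega

theorem pr_lo (hm : 4 ≤ m) (hb : b = 0 ∨ b = 2 * m ∨ b = 4 * m) (h1 : b + 2 ≤ j) (h2 : j < b + 6) :
    pr m j = j - 2 := by
  have e : b + 4 * m + pl m (j - b) = 6 * m + (j - 2) := by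
    unfold pl; rw [if_neg (by omega), if_neg (by omega), if_pos (by omega)]; omega
  unfold pr
  rw [bs_of hb (by omega) (by omega), e, wr_ge' (by omega)]
  omega

theorem pr_hi (hb : b = 0 ∨ b = 2 * m ∨ b = 4 * m) (h1 : b + 6 ≤ j) (h2 : j < b + 2 * m) :
    pr m j = j - 1 := by
  have e : b + 4 * m + pl m (j - b) = 6 * m + (j - 1) := by
    unfold pl; rw [if_neg (by omega), if_neg (by omega), if_neg (by omega)]; omega
  unfold pr
  rw [bs_of hb (by omega) (by omega), e, wr_ge' (by omega)]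
  omega

theorem su_cases (hb : b = 0 ∨ b = 2 * m ∨ b = 4 * m) (_ : b ≤ j) (h2 : j < b + 2 * m) :
    j < b + 4 ∨ (j = b + 4 ∧ b < 4 * m) ∨ (j = b + 4 ∧ b = 4 * m) ∨ (b + 4 < j ∧ j + 1 < b + 2 * m) ∨
      (j + 1 = b + 2 * m ∧ b < 4 * m) ∨ (j + 1 = b + 2 * m ∧ b = 4 * m) := by
  have : b < 4 * m ∨ b = 4 * m := by omega
  omega

theorem pr_cases (_ : b = 0 ∨ b = 2 * m ∨ b = 4 * m) (h1 : b ≤ j) (h2 : j < b + 2 * m) :
    (j = 0) ∨ (j = b ∧ 0 < b) ∨ (j = 1) ∨ (j = b + 1 ∧ 0 < b) ∨ (b + 2 ≤ j ∧ j < b + 6) ∨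
      (b + 6 ≤ j ∧ j < b + 2 * m) := by
  omega

end

section
variable {m j : ℕ}

theorem su_lt (hm : 4 ≤ m) (hj : j < 6 * m) : su m j < 6 * m := by
  obtain ⟨b, hb, h1, h2⟩ := loc hj
  rcases su_cases hb h1 h2 with h | h | h | h | h | h
  · rw [su_lo hm hb h1 h]; omega
  · rw [su_four hm hb h.1 h.2]; omega
  · rw [su_four' hm (by omega)]; omega
  · rw [su_hi hb h.1 h.2]; omega
  · rw [su_end hm hb h.1 h.2]; omega
  · rw [su_end' hm (by omega)]; omega

theorem pr_su (hm : 4 ≤ m) (hj : j < 6 * m) : pr m (su m j) = j := by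
  obtain ⟨b, hb, h1, h2⟩ := loc hj
  rcases su_cases hb h1 h2 with h | h | h | h | h | h
  · rw [su_lo hm hb h1 h, pr_lo hm hb (by omega) (by omega)]; omega
  · rw [su_four hm hb h.1 h.2, pr_first hm (by omega) (by omega)]; omega
  · rw [su_four' hm (by omega), pr_zero hm]; omega
  · rw [su_hi hb h.1 h.2, pr_hi hb (by omega) (by omega)]; omega
  · rw [su_end hm hb h.1 h.2, pr_second hm (by omega) (by omega)]; omega
  · rw [su_end' hm (by omega), pr_one hm]; omega

theorem pr_lt (hm : 4 ≤ m) (hj : j < 6 * m) : pr m j < 6 * m := by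
  obtain ⟨b, hb, h1, h2⟩ := loc hj
  rcases pr_cases hb h1 h2 with h | h | h | h | h | h
  · rw [h, pr_zero hm]; omega
  · rw [h.1, pr_first hm hb h.2]; omega
  · rw [h, pr_one hm]; omega
  · rw [h.1, pr_second hm hb h.2]; omega
  · rw [pr_lo hm hb h.1 h.2]; omega
  · rw [pr_hi hb h.1 h.2]; omega

theorem su_pr (hm : 4 ≤ m) (hj : j < 6 * m) : su m (pr m j) = j := by
  obtain ⟨b, hb, h1, h2⟩ := loc hj
  rcases pr_cases hb h1 h2 with h | h | h | h | h | h
  · rw [h, pr_zero hm, su_four' hm rfl]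
  · rw [h.1, pr_first hm hb h.2, su_four (b := b - 2 * m) hm (by omega) rfl (by omega)]; omega
  · rw [h, pr_one hm, su_end' hm (by omega)]
  · rw [h.1, pr_second hm hb h.2, su_end (b := b - 2 * m) hm (by omega) (by omega) (by omega)]; omega
  · rw [pr_lo hm hb h.1 h.2, su_lo hm hb (by omega) (by omega)]; omega
  · rw [pr_hi hb h.1 h.2, su_hi hb (by omega) (by omega)]; omega

theorem pr_ne (hm : 4 ≤ m) (hj : j < 6 * m) : pr m j ≠ j := by
  obtain ⟨b, hb, h1, h2⟩ := loc hj
  rcases pr_cases hb h1 h2 with h | h | h | h | h | h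
  · rw [h, pr_zero hm]; omega
  · rw [h.1, pr_first hm hb h.2]; omega
  · rw [h, pr_one hm]; omega
  · rw [h.1, pr_second hm hb h.2]; omega
  · rw [pr_lo hm hb h.1 h.2]; omega
  · rw [pr_hi hb h.1 h.2]; omega

theorem su_ne (hm : 4 ≤ m) (hj : j < 6 * m) : su m j ≠ j := by
  intro h
  have := pr_su hm hj
  rw [h] at this
  exact pr_ne hm hj this

theorem su_su_ne (hm : 4 ≤ m) (hj : j < 6 * m) : su m (su m j) ≠ j := by
  obtain ⟨b, hb, h1, h2⟩ := loc hj
  rcases su_cases hb h1 h2 with h | h | h | h | h | h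
  · rw [su_lo hm hb h1 h]
    by_cases h3 : j + 2 < b + 4
    · rw [su_lo hm hb (by omega) h3]; omega
    · by_cases h4 : j + 2 = b + 4
      · by_cases h5 : b = 4 * m
        · rw [su_four' hm (by omega)]; omega
        · rw [su_four hm hb h4 (by omega)]; omega
      · rw [su_hi hb (by omega) (by omega)]; omega
  · rw [su_four hm hb h.1 h.2, su_lo (b := b + 2 * m) hm (by omega) (by omega) (by omega)]; omega
  · rw [su_four' (j := j) hm (by omega), su_lo (b := 0) hm (by omega) (by omega) (by omega)]; omega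
  · rw [su_hi hb h.1 h.2]
    by_cases h3 : j + 1 + 1 < b + 2 * m
    · rw [su_hi hb (by omega) h3]; omega
    · by_cases h5 : b = 4 * m
      · rw [su_end' hm (by omega)]; omega
      · rw [su_end (b := b) hm hb (by omega) (by omega)]; omega
  · rw [su_end hm hb h.1 h.2, su_lo (b := b + 2 * m) hm (by omega) (by omega) (by omega)]; omega
  · rw [su_end' (j := j) hm (by omega), su_lo (b := 0) hm (by omega) (by omega) (by omega)]; omega

theorem pr_pr_ne (hm : 4 ≤ m) (hj : j < 6 * m) : pr m (pr m j) ≠ j := by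
  intro h
  apply su_su_ne hm hj
  have h1 : su m j = pr m j := by
    conv_lhs => rw [← h]
    exact su_pr hm (pr_lt hm hj)
  rw [h1, su_pr hm hj]

theorem rb_lt (hj : j < 6 * m) : rb m j < 6 * m := by
  unfold rb; split_ifs <;> omega

theorem su_rb (hm : 4 ≤ m) (hj : j < 6 * m) : su m (rb m j) = rb m (su m j) := by
  obtain ⟨b, hb, h1, h2⟩ := loc hj
  have hb' : rb m b = 0 ∨ rb m b = 2 * m ∨ rb m b = 4 * m := by unfold rb; split_ifs <;> omega
  have hjb : rb m j + b = rb m b + j := by unfold rb; split_ifs <;> omega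
  rcases su_cases hb h1 h2 with h | h | h | h | h | h
  · rw [su_lo hm hb h1 h, su_lo (b := rb m b) hm hb' (by omega) (by omega)]
    unfold rb; split_ifs <;> omega
  · rw [su_four hm hb h.1 h.2]
    by_cases h5 : b = 0
    · subst h5
      have : rb m 0 = 2 * m := by unfold rb; rw [if_pos (by omega)]; omega
      rw [su_four (b := 2 * m) hm (by omega) (by omega) (by omega)]
      unfold rb; split_ifs <;> omega
    · have h6 : rb m b = 4 * m := by unfold rb; rw [if_pos (by omega)]; omega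
      rw [su_four' hm (by omega)]
      unfold rb; split_ifs <;> omega
  · have h6 : rb m b = 0 := by unfold rb; rw [if_neg (by omega)]; omega
    rw [su_four' (j := j) hm (by omega), su_four (b := 0) hm (by omega) (by omega) (by omega)]
    unfold rb; split_ifs <;> omega
  · rw [su_hi hb h.1 h.2, su_hi (b := rb m b) hb' (by omega) (by omega)]
    unfold rb; split_ifs <;> omega
  · rw [su_end hm hb h.1 h.2]
    by_cases h5 : b = 0
    · subst h5
      have : rb m 0 = 2 * m := by unfold rb; rw [if_pos (by omega)]; omega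
      rw [su_end (b := 2 * m) hm (by omega) (by omega) (by omega)]
      unfold rb; split_ifs <;> omega
    · have h6 : rb m b = 4 * m := by unfold rb; rw [if_pos (by omega)]; omega
      rw [su_end' hm (by omega)]
      unfold rb; split_ifs <;> omega
  · have h6 : rb m b = 0 := by unfold rb; rw [if_neg (by omega)]; omega
    rw [su_end' (j := j) hm (by omega), su_end (b := 0) hm (by omega) (by omega) (by omega)]
    unfold rb; split_ifs <;> omega

theorem pr_rb (hm : 4 ≤ m) (hj : j < 6 * m) : pr m (rb m j) = rb m (pr m j) := by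
  have h := su_rb hm (pr_lt hm hj)
  rw [su_pr hm hj] at h
  rw [← h, pr_su hm (rb_lt (pr_lt hm hj))]

end

/-- the successor of a leaf in its leaf cycle -/
def nx (m a : ℕ) : ℕ :=
  if a % 4 = 0 then a + 3 else if a % 4 = 2 then a - 1 else 4 * pr m (a / 4) + (a % 4 - 1)

/-- the predecessor of a leaf in its leaf cycle -/
def pv (m a : ℕ) : ℕ :=
  if a % 4 = 3 then a - 3 else if a % 4 = 1 then a + 1 else 4 * su m (a / 4) + (a % 4 + 1)

theorem nx_lt {m a : ℕ} (hm : 4 ≤ m) (ha : a < 24 * m) : nx m a < 24 * m := by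
  have := pr_lt (j := a / 4) hm (by omega)
  unfold nx; split_ifs <;> omega

theorem pv_lt {m a : ℕ} (hm : 4 ≤ m) (ha : a < 24 * m) : pv m a < 24 * m := by
  have := su_lt (j := a / 4) hm (by omega)
  unfold pv; split_ifs <;> omega

theorem nx_0 {m j : ℕ} : nx m (4 * j) = 4 * j + 3 := by
  unfold nx; rw [if_pos (by omega)]

theorem nx_1 {m j : ℕ} : nx m (4 * j + 1) = 4 * pr m j := by
  unfold nx
  rw [if_neg (by omega), if_neg (by omega)]
  have h1 : (4 * j + 1) / 4 = j := by omega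
  have h2 : (4 * j + 1) % 4 = 1 := by omega
  rw [h1, h2]
  rfl

theorem nx_2 {m j : ℕ} : nx m (4 * j + 2) = 4 * j + 1 := by
  unfold nx; rw [if_neg (by omega), if_pos (by omega)]; omega

theorem nx_3 {m j : ℕ} : nx m (4 * j + 3) = 4 * pr m j + 2 := by
  unfold nx
  rw [if_neg (by omega), if_neg (by omega)]
  have h1 : (4 * j + 3) / 4 = j := by omega
  have h2 : (4 * j + 3) % 4 = 3 := by omega
  rw [h1, h2]

theorem pv_0 {m j : ℕ} : pv m (4 * j) = 4 * su m j + 1 := by
  unfold pv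
  rw [if_neg (by omega), if_neg (by omega)]
  have h1 : (4 * j) / 4 = j := by omega
  have h2 : (4 * j) % 4 = 0 := by omega
  rw [h1, h2]

theorem pv_1 {m j : ℕ} : pv m (4 * j + 1) = 4 * j + 2 := by
  unfold pv; rw [if_neg (by omega), if_pos (by omega)]

theorem pv_2 {m j : ℕ} : pv m (4 * j + 2) = 4 * su m j + 3 := by
  unfold pv
  rw [if_neg (by omega), if_neg (by omega)]
  have h1 : (4 * j + 2) / 4 = j := by omega
  have h2 : (4 * j + 2) % 4 = 2 := by omega
  rw [h1, h2]

theorem pv_3 {m j : ℕ} : pv m (4 * j + 3) = 4 * j := by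
  unfold pv; rw [if_pos (by omega)]; omega

theorem res (a : ℕ) : ∃ j, a = 4 * j ∨ a = 4 * j + 1 ∨ a = 4 * j + 2 ∨ a = 4 * j + 3 :=
  ⟨a / 4, by omega⟩

theorem pv_nx {m a : ℕ} (hm : 4 ≤ m) (ha : a < 24 * m) : pv m (nx m a) = a := by
  obtain ⟨j, rfl | rfl | rfl | rfl⟩ := res a
  · rw [nx_0, pv_3]
  · rw [nx_1, pv_0, su_pr hm (by omega)]
  · rw [nx_2, pv_1]
  · rw [nx_3, pv_2, su_pr hm (by omega)]

theorem nx_pv {m a : ℕ} (hm : 4 ≤ m) (ha : a < 24 * m) : nx m (pv m a) = a := by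
  obtain ⟨j, rfl | rfl | rfl | rfl⟩ := res a
  · rw [pv_0, nx_1, pr_su hm (by omega)]
  · rw [pv_1, nx_2]
  · rw [pv_2, nx_3, pr_su hm (by omega)]
  · rw [pv_3, nx_0]

/-- siblings are not adjacent -/
theorem nx_div {m a : ℕ} (hm : 4 ≤ m) (ha : a < 24 * m) : nx m a / 2 ≠ a / 2 := by
  obtain ⟨j, rfl | rfl | rfl | rfl⟩ := res a
  · rw [nx_0]; omega
  · have := pr_ne (j := j) hm (by omega)
    rw [nx_1]; omega
  · rw [nx_2]; omega
  · have := pr_ne (j := j) hm (by omega)
    rw [nx_3]; omega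

/-- siblings have no common neighbour -/
theorem nx_nx_div {m a : ℕ} : nx m (nx m a) / 2 ≠ a / 2 := by
  obtain ⟨j, rfl | rfl | rfl | rfl⟩ := res a
  · rw [nx_0, nx_3]; omega
  · rw [nx_1, nx_0]; omega
  · rw [nx_2, nx_1]; omega
  · rw [nx_3, nx_2]; omega

theorem nx_mod {m a : ℕ} : nx m a % 2 ≠ a % 2 := by
  obtain ⟨j, rfl | rfl | rfl | rfl⟩ := res a
  · rw [nx_0]; omega
  · rw [nx_1]; omega
  · rw [nx_2]; omega
  · rw [nx_3]; omega

theorem nx4 {m a : ℕ} (hm : 4 ≤ m) (ha : a < 24 * m) : nx m (nx m (nx m (nx m a))) ≠ a := by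
  obtain ⟨j, rfl | rfl | rfl | rfl⟩ := res a
  · have := pr_pr_ne (j := j) hm (by omega)
    rw [nx_0, nx_3, nx_2, nx_1]; omega
  · have := pr_pr_ne (j := j) hm (by omega)
    rw [nx_1, nx_0, nx_3, nx_2]; omega
  · have := pr_pr_ne (j := j) hm (by omega)
    rw [nx_2, nx_1, nx_0, nx_3]; omega
  · have := pr_pr_ne (j := j) hm (by omega)
    rw [nx_3, nx_2, nx_1, nx_0]; omega

theorem nx_nx_ne {m a : ℕ} : nx m (nx m a) ≠ a := fun h => nx_nx_div (m := m) (a := a) (by rw [h])

theorem nx3 {m a : ℕ} : nx m (nx m (nx m a)) ≠ a := by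
  intro h
  have h1 := nx_mod (m := m) (a := a)
  have h2 := nx_mod (m := m) (a := nx m a)
  have h3 := nx_mod (m := m) (a := nx m (nx m a))
  rw [h] at h3
  omega

/-- rotation by one third of the leaves -/
def rl (m a : ℕ) : ℕ := if a < 16 * m then a + 8 * m else a - 16 * m

theorem rl_eq {m a : ℕ} (ha : a < 24 * m) : (a + 8 * m) % (24 * m) = rl m a := by
  unfold rl
  split_ifs with h
  · exact Nat.mod_eq_of_lt (by omega)
  · have : a + 8 * m = (a - 16 * m) + 24 * m := by omega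
    rw [this, Nat.add_mod_right, Nat.mod_eq_of_lt (by omega)]

theorem rl_rb {m j e : ℕ} (he : e < 4) : rl m (4 * j + e) = 4 * rb m j + e := by
  unfold rl rb; split_ifs <;> omega

theorem nx_rl {m a : ℕ} (hm : 4 ≤ m) (ha : a < 24 * m) : nx m (rl m a) = rl m (nx m a) := by
  obtain ⟨j, rfl | rfl | rfl | rfl⟩ := res a
  · have h0 := rl_rb (m := m) (j := j) (e := 0) (by omega)
    rw [nx_0, rl_rb (by omega), ← nx_0 (m := m)]
    congr 1
  · rw [rl_rb (by omega), nx_1, nx_1, pr_rb hm (by omega)]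
    exact (rl_rb (m := m) (j := pr m j) (e := 0) (by omega)).symm
  · rw [rl_rb (by omega), nx_2, nx_2, rl_rb (by omega)]
  · rw [rl_rb (by omega), nx_3, nx_3, pr_rb hm (by omega), rl_rb (by omega)]

end Pool.Agent.J4H90.Rot
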