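import Pool.Agent.N366.RS.Stm
import Pool.Agent.J4H90.RotNum

/-!
# Rotation snarks: the graphs, their degrees and their girth
-/

set_option autoImplicit false

namespace Pool.Agent.J4H90.Rot

open Pool.Agent.N366.RS

/-- there are `2 * M t` blocks in each of the three branches of `T_{t+6}` -/
def M (t : ℕ) : ℕ := 2 ^ (t + 2)

theorem four_le_M (t : ℕ) : 4 ≤ M t := by
  have h : 2 ^ 2 ≤ 2 ^ (t + 2) := Nat.pow_le_pow_right (by norm_num) (by omega)
  unfold M
  omega

theorem width_two {d : ℕ} (h : 2 ≤ d) : width d = 2 * width (d - 1) := by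
  obtain ⟨e, rfl⟩ : ∃ e, d = e + 2 := ⟨d - 2, by omega⟩
  have h1 : e + 2 - 1 = e + 1 := by omega
  rw [h1]
  unfold width
  rw [if_neg (by omega), if_neg (by omega)]
  have h2 : e + 2 - 1 = e + 1 := by omega
  have h3 : e + 1 - 1 = e := by omega
  rw [h2, h3, pow_succ]
  ring

theorem width3 (t : ℕ) : width (t + 3) = 3 * M t := by
  unfold width M
  rw [if_neg (by omega)]
  congr 1

theorem width4 (t : ℕ) : width (t + 4) = 6 * M t := by
  rw [width_two (by omega), show t + 4 - 1 = t + 3 by omega, width3]; ring

theorem width5 (t : ℕ) : width (t + 5) = 12 * M t := by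
  rw [width_two (by omega), show t + 5 - 1 = t + 4 by omega, width4]; ring

theorem width6 (t : ℕ) : width (t + 6) = 24 * M t := by
  rw [width_two (by omega), show t + 6 - 1 = t + 5 by omega, width5]; ring

/-- the parent -/
def par (p : ℕ × ℕ) : ℕ × ℕ := (p.1 - 1, if p.1 ≤ 1 then 0 else p.2 / 2)

theorem isChild_iff {p q : ℕ × ℕ} (hp : p.2 < width p.1) : IsChild p q ↔ q.1 ≠ 0 ∧ p = par q := by
  obtain ⟨a, b⟩ := p
  obtain ⟨c, d⟩ := q
  unfold IsChild par
  simp only [Prod.mk.injEq, ne_eq]
  simp only at hp
  constructor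
  · rintro ⟨h1, h2⟩
    refine ⟨by omega, by omega, ?_⟩
    split_ifs with h
    · have : a = 0 := by omega
      subst this
      have : width 0 = 1 := rfl
      omega
    · omega
  · rintro ⟨h1, h2, h3⟩
    refine ⟨by omega, ?_⟩
    split_ifs at h3 with h
    · left; omega
    · right; exact h3

variable {t : ℕ}

theorem par_ok (v : Node (t + 6)) : (par v.1).1 ≤ t + 6 ∧ (par v.1).2 < width (par v.1).1 := by
  obtain ⟨⟨d, c⟩, h1, h2⟩ := v
  simp only [par] at *
  refine ⟨by omega, ?_⟩
  split_ifs with h
  · exact width_pos _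
  · rw [width_two (d := d) (by omega)] at h2
    show c / 2 < width (d - 1)
    omega

/-- the parent of a vertex -/
def parN (v : Node (t + 6)) : Node (t + 6) := ⟨par v.1, par_ok v⟩

/-- the depth of a vertex -/
abbrev dep (v : Node (t + 6)) : ℕ := v.1.1

/-- the number of a vertex in its level -/
abbrev num (v : Node (t + 6)) : ℕ := v.1.2

theorem dep_parN (v : Node (t + 6)) : dep (parN v) = dep v - 1 := rfl

theorem dep_le (v : Node (t + 6)) : dep v ≤ t + 6 := v.2.1

theorem num_lt_width (v : Node (t + 6)) : num v < width (dep v) := v.2.2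

theorem num_parN {v : Node (t + 6)} (h : 1 < dep v) : num (parN v) = num v / 2 := by
  show (if dep v ≤ 1 then 0 else num v / 2) = _
  rw [if_neg (by omega)]

theorem node_ext {v w : Node (t + 6)} (h1 : dep v = dep w) (h2 : num v = num w) : v = w :=
  Subtype.ext (Prod.ext h1 h2)

theorem num_lt {v : Node (t + 6)} (h : dep v = t + 6) : num v < 24 * M t := by
  have := num_lt_width v
  rw [h, width6] at this
  exact this

/-- the leaf with number `a` -/
def lf (t a : ℕ) (h : a < 24 * M t) : Node (t + 6) := ⟨(t + 6, a), le_rfl, by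
  show a < width (t + 6)
  rw [width6]; exact h⟩

/-- the successor of a leaf -/
def nxN (v : Node (t + 6)) : Node (t + 6) :=
  if h : dep v = t + 6 then lf t (nx (M t) (num v)) (nx_lt (four_le_M t) (num_lt h)) else v

/-- the predecessor of a leaf -/
def pvN (v : Node (t + 6)) : Node (t + 6) :=
  if h : dep v = t + 6 then lf t (pv (M t) (num v)) (pv_lt (four_le_M t) (num_lt h)) else v

theorem dep_nxN {v : Node (t + 6)} (h : dep v = t + 6) : dep (nxN v) = t + 6 := by
  unfold nxN; rw [dif_pos h]; rfl

theorem num_nxN {v : Node (t + 6)} (h : dep v = t + 6) : num (nxN v) = nx (M t) (num v) := by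
  unfold nxN; rw [dif_pos h]; rfl

theorem dep_pvN {v : Node (t + 6)} (h : dep v = t + 6) : dep (pvN v) = t + 6 := by
  unfold pvN; rw [dif_pos h]; rfl

theorem num_pvN {v : Node (t + 6)} (h : dep v = t + 6) : num (pvN v) = pv (M t) (num v) := by
  unfold pvN; rw [dif_pos h]; rfl

theorem nxN_pvN {v : Node (t + 6)} (h : dep v = t + 6) : nxN (pvN v) = v :=
  node_ext (by rw [dep_nxN (dep_pvN h), h])
    (by rw [num_nxN (dep_pvN h), num_pvN h, nx_pv (four_le_M t) (num_lt h)])

theorem pvN_nxN {v : Node (t + 6)} (h : dep v = t + 6) : pvN (nxN v) = v :=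
  node_ext (by rw [dep_pvN (dep_nxN h), h])
    (by rw [num_pvN (dep_nxN h), num_nxN h, pv_nx (four_le_M t) (num_lt h)])

theorem nxN_ne {v : Node (t + 6)} (h : dep v = t + 6) : nxN v ≠ v := by
  intro e
  have h1 : num (nxN v) = num v := by rw [e]
  rw [num_nxN h] at h1
  exact nx_div (four_le_M t) (num_lt h) (by rw [h1])

theorem parN_ne {v : Node (t + 6)} (h : dep v ≠ 0) : parN v ≠ v := by
  intro e
  have h1 : dep (parN v) = dep v := by rw [e]
  rw [dep_parN] at h1
  omega

/-- The graph: the tree `T_{t+6}` and the leaf cycles. -/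
def G (t : ℕ) : SimpleGraph (Node (t + 6)) where
  Adj v w := (dep v ≠ 0 ∧ w = parN v) ∨ (dep w ≠ 0 ∧ v = parN w) ∨ (dep v = t + 6 ∧ w = nxN v) ∨
    (dep w = t + 6 ∧ v = nxN w)
  symm := ⟨fun v w h => by
    rcases h with h | h | h | h
    · exact Or.inr (Or.inl h)
    · exact Or.inl h
    · exact Or.inr (Or.inr (Or.inr h))
    · exact Or.inr (Or.inr (Or.inl h))⟩
  loopless := ⟨fun v h => by
    rcases h with h | h | h | h
    · exact parN_ne h.1 h.2.symm
    · exact parN_ne h.1 h.2.symm
    · exact nxN_ne h.1 h.2.symm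
    · exact nxN_ne h.1 h.2.symm⟩

theorem tree_le (v w : Node (t + 6)) (h : (tree (t + 6)).Adj v w) : (G t).Adj v w := by
  rcases h with h | h
  · rw [isChild_iff v.2.2] at h
    exact Or.inr (Or.inl ⟨h.1, Subtype.ext h.2⟩)
  · rw [isChild_iff w.2.2] at h
    exact Or.inl ⟨h.1, Subtype.ext h.2⟩

theorem adj_cases {v w : Node (t + 6)} (h : (G t).Adj v w) :
    (dep v = dep w + 1 ∧ w = parN v) ∨ (dep w = dep v + 1 ∧ v = parN w) ∨
    (dep v = t + 6 ∧ dep w = t + 6 ∧ (w = nxN v ∨ v = nxN w)) := by
  rcases h with h | h | h | h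
  · left
    refine ⟨?_, h.2⟩
    have := dep_parN v
    rw [← h.2] at this
    omega
  · right; left
    refine ⟨?_, h.2⟩
    have := dep_parN w
    rw [← h.2] at this
    omega
  · right; right
    exact ⟨h.1, by rw [h.2, dep_nxN h.1], Or.inl h.2⟩
  · right; right
    exact ⟨by rw [h.2, dep_nxN h.1], h.1, Or.inr h.2⟩

theorem adj_parN {v : Node (t + 6)} (h : dep v ≠ 0) : (G t).Adj v (parN v) := Or.inl ⟨h, rfl⟩

theorem adj_nxN {v : Node (t + 6)} (h : dep v = t + 6) : (G t).Adj v (nxN v) :=
  Or.inr (Or.inr (Or.inl ⟨h, rfl⟩))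

theorem adj_pvN {v : Node (t + 6)} (h : dep v = t + 6) : (G t).Adj v (pvN v) :=
  Or.inr (Or.inr (Or.inr ⟨dep_pvN h, (nxN_pvN h).symm⟩))

theorem adj_leaf {v w : Node (t + 6)} (h : dep v = t + 6) (hw : (G t).Adj v w) :
    w = parN v ∨ w = nxN v ∨ w = pvN v := by
  rcases adj_cases hw with h1 | h1 | h1
  · exact Or.inl h1.2
  · have := dep_le w
    omega
  · rcases h1.2.2 with h2 | h2
    · exact Or.inr (Or.inl h2)
    · exact Or.inr (Or.inr (by rw [h2, pvN_nxN h1.2.1]))

theorem nxN_inj {v w : Node (t + 6)} (hv : dep v = t + 6) (hw : dep w = t + 6)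
    (h : nxN v = nxN w) : v = w := by
  rw [← pvN_nxN hv, h, pvN_nxN hw]

/-! ## Degrees -/

/-- a vertex of depth one -/
def top (t k : ℕ) (h : k < 3) : Node (t + 6) := ⟨(1, k), by omega, h⟩

/-- a child -/
def chi (v : Node (t + 6)) (h0 : dep v ≠ 0) (h : dep v ≠ t + 6) (e : ℕ) (he : e < 2) : Node (t + 6) :=
  ⟨(dep v + 1, 2 * num v + e), by
    have h1 := dep_le v
    have h2 := num_lt_width v
    refine ⟨by show dep v + 1 ≤ t + 6; omega, ?_⟩
    show 2 * num v + e < width (dep v + 1)
    rw [width_two (by omega), Nat.add_sub_cancel]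
    omega⟩

theorem parN_chi {v : Node (t + 6)} (h0 : dep v ≠ 0) (h : dep v ≠ t + 6) (e : ℕ) (he : e < 2) :
    parN (chi v h0 h e he) = v := by
  apply node_ext
  · rw [dep_parN]
    show v.1.1 + 1 - 1 = _
    simp
  · rw [num_parN]
    · show (2 * v.1.2 + e) / 2 = v.1.2
      omega
    · show 1 < v.1.1 + 1
      simp only [dep] at h0
      omega

theorem cubic (v : Node (t + 6)) : ((G t).neighborSet v).ncard = 3 := by
  rw [Set.ncard_eq_three]
  by_cases h0 : dep v = 0
  · refine ⟨top t 0 (by omega), top t 1 (by omega), top t 2 (by omega), ?_, ?_, ?_, ?_⟩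
    · intro h; exact absurd (congrArg (fun x => x.1.2) h) (by simp [top])
    · intro h; exact absurd (congrArg (fun x => x.1.2) h) (by simp [top])
    · intro h; exact absurd (congrArg (fun x => x.1.2) h) (by simp [top])
    · ext w
      simp only [SimpleGraph.mem_neighborSet, Set.mem_insert_iff, Set.mem_singleton_iff]
      constructor
      · intro hw
        rcases adj_cases hw with h1 | h1 | h1
        · omega
        · have h2 := w.2.2
          have h3 : w.1.1 = 1 := by
            have := h1.1
            simp only [dep] at *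
            omega
          rw [h3] at h2
          have h4 : width 1 = 3 := rfl
          rw [h4] at h2
          have h5 : num w = 0 ∨ num w = 1 ∨ num w = 2 := by simp only [num]; omega
          rcases h5 with h5 | h5 | h5
          · exact Or.inl (node_ext h3 h5)
          · exact Or.inr (Or.inl (node_ext h3 h5))
          · exact Or.inr (Or.inr (node_ext h3 h5))
        · omega
      · intro hw
        have hd : dep w = 1 := by rcases hw with rfl | rfl | rfl <;> rfl
        refine Or.inr (Or.inl ⟨by omega, ?_⟩)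
        apply node_ext
        · rw [dep_parN]; omega
        · have h2 := v.2.2
          simp only [dep] at h0
          rw [h0] at h2
          have h4 : width 0 = 1 := rfl
          have h6 : num (parN w) = 0 := by
            show (if w.1.1 ≤ 1 then 0 else w.1.2 / 2) = 0
            rw [if_pos (by simp only [dep] at hd; omega)]
          rw [h6]
          simp only [num]
          omega
  · by_cases h6 : dep v = t + 6
    · refine ⟨parN v, nxN v, pvN v, ?_, ?_, ?_, ?_⟩
      · intro h
        have := dep_nxN h6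
        rw [← h, dep_parN] at this
        omega
      · intro h
        have := dep_pvN h6
        rw [← h, dep_parN] at this
        omega
      · intro h
        have h1 : nxN (nxN v) = v := by rw [h, nxN_pvN h6]
        have h2 := congrArg num h1
        rw [num_nxN (dep_nxN h6), num_nxN h6] at h2
        exact nx_nx_ne h2
      · ext w
        simp only [SimpleGraph.mem_neighborSet, Set.mem_insert_iff, Set.mem_singleton_iff]
        constructor
        · exact adj_leaf h6
        · rintro (rfl | rfl | rfl)
          · exact adj_parN h0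
          · exact adj_nxN h6
          · exact adj_pvN h6
    · refine ⟨parN v, chi v h0 h6 0 (by omega), chi v h0 h6 1 (by omega), ?_, ?_, ?_, ?_⟩
      · intro h
        have h1 : dep (parN v) = dep v + 1 := by rw [h]; rfl
        rw [dep_parN] at h1
        omega
      · intro h
        have h1 : dep (parN v) = dep v + 1 := by rw [h]; rfl
        rw [dep_parN] at h1
        omega
      · intro h
        have h1 := congrArg num h
        simp only [chi, num] at h1
        omega
      · ext w
        simp only [SimpleGraph.mem_neighborSet, Set.mem_insert_iff, Set.mem_singleton_iff]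
        constructor
        · intro hw
          rcases adj_cases hw with h1 | h1 | h1
          · exact Or.inl h1.2
          · right
            have h2 : num v = num w / 2 := by
              rw [h1.2, num_parN (by omega)]
            have h3 : num w = 2 * num v ∨ num w = 2 * num v + 1 := by omega
            rcases h3 with h3 | h3
            · exact Or.inl (node_ext h1.1 h3)
            · exact Or.inr (node_ext h1.1 h3)
          · omega
        · rintro (rfl | rfl | rfl)
          · exact adj_parN h0
          · exact Or.inr (Or.inl ⟨by simp [chi], (parN_chi h0 h6 0 (by omega)).symm⟩)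
          · exact Or.inr (Or.inl ⟨by simp [chi], (parN_chi h0 h6 1 (by omega)).symm⟩)

/-! ## Girth -/

theorem sib {v w : Node (t + 6)} (hv : dep v = t + 6) (hw : dep w = t + 6) (h : parN v = parN w) :
    num v / 2 = num w / 2 := by
  rw [← num_parN (by omega), ← num_parN (v := w) (by omega), h]

theorem sib1 {v : Node (t + 6)} (hv : dep v = t + 6) : parN (nxN v) ≠ parN v := by
  intro h
  have := sib (dep_nxN hv) hv h
  rw [num_nxN hv] at this
  exact nx_div (four_le_M t) (num_lt hv) this

theorem sib2 {v : Node (t + 6)} (hv : dep v = t + 6) : parN (nxN (nxN v)) ≠ parN v := by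
  intro h
  have := sib (dep_nxN (dep_nxN hv)) hv h
  rw [num_nxN (dep_nxN hv), num_nxN hv] at this
  exact nx_nx_div this

theorem cyc3 {v : Node (t + 6)} (hv : dep v = t + 6) : nxN (nxN (nxN v)) ≠ v := by
  intro h
  have := congrArg num h
  rw [num_nxN (dep_nxN (dep_nxN hv)), num_nxN (dep_nxN hv), num_nxN hv] at this
  exact nx3 this

theorem cyc4 {v : Node (t + 6)} (hv : dep v = t + 6) : nxN (nxN (nxN (nxN v))) ≠ v := by
  intro h
  have := congrArg num h
  rw [num_nxN (dep_nxN (dep_nxN (dep_nxN hv))), num_nxN (dep_nxN (dep_nxN hv)),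
    num_nxN (dep_nxN hv), num_nxN hv] at this
  exact nx4 (four_le_M t) (num_lt hv) this

theorem noTri {a b c : Node (t + 6)} (h1 : (G t).Adj a b) (h2 : (G t).Adj b c) (h3 : (G t).Adj c a) :
    False := by
  have nab := h1.ne
  have nbc := h2.ne
  have nca := h3.ne
  -- a leaf edge `a b` whose ends have the same parent
  have key : ∀ x y : Node (t + 6), dep x = t + 6 → dep y = t + 6 → (y = nxN x ∨ x = nxN y) →
      parN x = parN y → False := by
    intro x y hx hy hxy hp
    rcases hxy with rfl | rfl
    · exact sib1 hx hp.symm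
    · exact sib1 hy hp
  have la := dep_le a
  have lb := dep_le b
  have lc := dep_le c
  rcases adj_cases h1 with g1 | g1 | g1 <;> rcases adj_cases h2 with g2 | g2 | g2 <;>
    rcases adj_cases h3 with g3 | g3 | g3 <;> try omega
  · exact key _ _ g3.1 g3.2.1 g3.2.2 (by rw [← g2.2, ← g1.2])
  · exact key _ _ g2.1 g2.2.1 g2.2.2 (by rw [← g1.2, ← g3.2])
  · exact key _ _ g1.1 g1.2.1 g1.2.2 (by rw [← g2.2, ← g3.2])
  · obtain ⟨da, db, g1⟩ := g1
    obtain ⟨-, dc, g2⟩ := g2
    obtain ⟨-, -, g3⟩ := g3
    rcases g1 with g1 | g1 <;> rcases g2 with g2 | g2 <;> rcases g3 with g3 | g3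
    · exact cyc3 da (by rw [← g1, ← g2, ← g3])
    · exact nbc (g1.trans g3.symm)
    · exact nab (g3.trans g2.symm)
    · exact nbc (g1.trans g3.symm)
    · exact nca (g2.trans g1.symm)
    · exact nca (g2.trans g1.symm)
    · exact nab (g3.trans g2.symm)
    · exact cyc3 da (by rw [← g3, ← g2, ← g1])

/-- four-cycles through a leaf, first case -/
theorem noC4a {a d c : Node (t + 6)} (ha : dep a = t + 6) (hd : dep d = t + 6)
    (had : d = nxN a ∨ a = nxN d) (hcd : (G t).Adj c d) (hbc : (G t).Adj (parN a) c) (hac : a ≠ c) :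
    False := by
  have hb : dep (parN a) = t + 5 := by rw [dep_parN]; omega
  rcases adj_leaf hd hcd.symm with h | h | h
  · have h1 : dep c = t + 5 := by rw [h, dep_parN]; omega
    rcases adj_cases hbc with g | g | g <;> omega
  · have h1 : dep c = t + 6 := by rw [h, dep_nxN hd]
    rcases had with e | e
    · subst e
      subst h
      rcases adj_cases hbc with g | g | g
      · omega
      · exact sib2 ha g.2.symm
      · omega
    · exact hac (by rw [h, ← e])
  · have h1 : dep c = t + 6 := by rw [h, dep_pvN hd]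
    have h2 : d = nxN c := by rw [h, nxN_pvN hd]
    rcases had with e | e
    · exact hac (nxN_inj ha h1 (by rw [← e, ← h2]))
    · rcases adj_cases hbc with g | g | g
      · omega
      · subst h2
        subst e
        exact sib2 h1 g.2
      · omega

/-- four-cycles through a leaf, second case -/
theorem noC4b {a b c d : Node (t + 6)} (ha : dep a = t + 6) (hb : b = nxN a) (hd : a = nxN d)
    (hd6 : dep d = t + 6) (hbc : (G t).Adj b c) (hcd : (G t).Adj c d) (hac : a ≠ c) : False := by
  have hb6 : dep b = t + 6 := by rw [hb, dep_nxN ha]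
  rcases adj_leaf hb6 hbc with h | h | h
  · have h5 : dep c = t + 5 := by rw [h, dep_parN]; omega
    rcases adj_leaf hd6 hcd.symm with g | g | g
    · subst hd
      subst hb
      exact sib2 hd6 (by rw [← h, ← g])
    · rw [← hd] at g
      exact hac g.symm
    · have : dep c = t + 6 := by rw [g, dep_pvN hd6]
      omega
  · have h5 : dep c = t + 6 := by rw [h, dep_nxN hb6]
    rcases adj_leaf hd6 hcd.symm with g | g | g
    · have : dep c = t + 5 := by rw [g, dep_parN]; omega
      omega
    · rw [← hd] at g
      exact hac g.symm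
    · have g2 : d = nxN c := by rw [g, nxN_pvN hd6]
      exact cyc4 ha (by rw [← hb, ← h, ← g2, ← hd])
  · have h1 : b = nxN c := by rw [h, nxN_pvN hb6]
    have h5 : dep c = t + 6 := by rw [h, dep_pvN hb6]
    exact hac (nxN_inj ha h5 (by rw [← hb, ← h1]))

theorem noC4l {a b c d : Node (t + 6)} (ha : dep a = t + 6) (hab : (G t).Adj a b)
    (hbc : (G t).Adj b c) (hcd : (G t).Adj c d) (hda : (G t).Adj d a) (hac : a ≠ c) (hbd : b ≠ d) :
    False := by
  rcases adj_leaf ha hab with h | h | h <;> rcases adj_leaf ha hda.symm with g | g | g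
  · exact hbd (by rw [h, g])
  · subst h
    exact noC4a ha (by rw [g, dep_nxN ha]) (Or.inl g) hcd hbc hac
  · subst h
    exact noC4a ha (by rw [g, dep_pvN ha]) (Or.inr (by rw [g, nxN_pvN ha])) hcd hbc hac
  · subst g
    exact noC4a ha (by rw [h, dep_nxN ha]) (Or.inl h) hbc.symm hcd.symm hac
  · exact hbd (by rw [h, g])
  · exact noC4b ha h (by rw [g, nxN_pvN ha]) (by rw [g, dep_pvN ha]) hbc hcd hac
  · subst g
    exact noC4a ha (by rw [h, dep_pvN ha]) (Or.inr (by rw [h, nxN_pvN ha])) hbc.symm hcd.symm hac
  · exact noC4b ha g (by rw [h, nxN_pvN ha]) (by rw [h, dep_pvN ha]) hcd.symm hbc.symm hac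
  · exact hbd (by rw [h, g])

theorem noC4 {a b c d : Node (t + 6)} (hab : (G t).Adj a b) (hbc : (G t).Adj b c)
    (hcd : (G t).Adj c d) (hda : (G t).Adj d a) (hac : a ≠ c) (hbd : b ≠ d) : False := by
  by_cases ha : dep a = t + 6
  · exact noC4l ha hab hbc hcd hda hac hbd
  by_cases hb : dep b = t + 6
  · exact noC4l hb hbc hcd hda hab hbd hac.symm
  by_cases hc : dep c = t + 6
  · exact noC4l hc hcd hda hab hbc hac.symm hbd.symm
  by_cases hd : dep d = t + 6
  · exact noC4l hd hda hab hbc hcd hbd.symm hac
  rcases adj_cases hab with g1 | g1 | g1 <;> rcases adj_cases hbc with g2 | g2 | g2 <;>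
    rcases adj_cases hcd with g3 | g3 | g3 <;> rcases adj_cases hda with g4 | g4 | g4 <;>
    first
    | omega
    | exact hac (g1.2.trans g2.2.symm)
    | exact hac (g2.2.trans g1.2.symm)
    | exact hbd (g2.2.trans g3.2.symm)
    | exact hbd (g3.2.trans g2.2.symm)
    | exact hac (g3.2.trans g4.2.symm).symm
    | exact hac (g4.2.trans g3.2.symm)
    | exact hbd (g4.2.trans g1.2.symm).symm

theorem girth5 (v : Node (t + 6)) (c : (G t).Walk v v) (hc : c.IsCycle) : 5 ≤ c.length := by
  have h3 := hc.three_le_length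
  by_contra hlt
  have hl : c.length = 3 ∨ c.length = 4 := by omega
  have h0 : c.getVert 0 = v := c.getVert_zero
  have hlast : c.getVert c.length = v := c.getVert_length
  have a01 := c.adj_getVert_succ (i := 0) (by omega)
  have a12 := c.adj_getVert_succ (i := 1) (by omega)
  have a23 := c.adj_getVert_succ (i := 2) (by omega)
  rcases hl with hl | hl
  · rw [hl] at hlast
    rw [h0] at a01
    simp only [Nat.reduceAdd] at a01 a12 a23
    rw [hlast] at a23
    exact noTri a01 a12 a23
  · rw [hl] at hlast
    have a34 := c.adj_getVert_succ (i := 3) (by omega)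
    rw [h0] at a01
    simp only [Nat.reduceAdd] at a01 a12 a23 a34
    rw [hlast] at a34
    refine noC4 a01 a12 a23 a34 ?_ ?_
    · intro h
      have := hc.getVert_injOn (by simp; omega) (by simp; omega) (hlast.trans h)
      omega
    · intro h
      have := hc.getVert_injOn (by simp; omega) (by simp; omega) h
      omega

/-! ## Cycles contain two neighbouring leaves -/

theorem cyc_leaf {u : Node (t + 6)} (c : (G t).Walk u u) (hc : c.IsCycle) :
    ∃ a ∈ c.support, dep a = t + 6 ∧ nxN a ∈ c.support := by
  classical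
  obtain ⟨w, hw, hmax⟩ := Finset.exists_max_image c.support.toFinset dep
    ⟨u, by simp⟩
  rw [List.mem_toFinset] at hw
  have hc' : (c.rotate w hw).IsCycle := hc.rotate hw
  have hs : (c.rotate w hw).snd ∈ c.support := by
    rw [← SimpleGraph.Walk.mem_support_rotate_iff c w hw]
    exact SimpleGraph.Walk.getVert_mem_support _ _
  have hp : (c.rotate w hw).penultimate ∈ c.support := by
    rw [← SimpleGraph.Walk.mem_support_rotate_iff c w hw]
    exact SimpleGraph.Walk.getVert_mem_support _ _
  have h1 : (G t).Adj w (c.rotate w hw).snd := SimpleGraph.Walk.adj_snd hc'.not_nil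
  have h2 : (G t).Adj (c.rotate w hw).penultimate w := SimpleGraph.Walk.adj_penultimate hc'.not_nil
  have h3 := hc'.snd_ne_penultimate
  have m1 := hmax _ (List.mem_toFinset.2 hs)
  have m2 := hmax _ (List.mem_toFinset.2 hp)
  by_cases hd : dep w = t + 6
  · rcases adj_leaf hd h1 with g | g | g
    · rcases adj_leaf hd h2.symm with k | k | k
      · exact absurd (g.trans k.symm) h3
      · exact ⟨w, hw, hd, by rw [← k]; exact hp⟩
      · exact ⟨_, hp, by rw [k, dep_pvN hd], by rw [k, nxN_pvN hd]; exact hw⟩
    · exact ⟨w, hw, hd, by rw [← g]; exact hs⟩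
    · exact ⟨_, hs, by rw [g, dep_pvN hd], by rw [g, nxN_pvN hd]; exact hw⟩
  · exfalso
    rcases adj_cases h1 with g | g | g
    · rcases adj_cases h2 with k | k | k
      · omega
      · exact h3 (g.2.trans k.2.symm)
      · omega
    · omega
    · omega

end Pool.Agent.J4H90.Rot
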